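import Pool.Agent.Work.MP_8f87b2_mid.FirstMax
import Pool.Agent.Work.MP_8f87b2_h35.InJ

/-!
# MP_8f87b2_co: a word with one part larger than 2 and without part 1 has no `111` after its first maximum

`one_FM_NT`. Used for `T(((S)))` against the words `((B) R)` of the one soliton gadgets.
-/

set_option autoImplicit false

namespace Pool.OddHC

open BinaryTree Pool.Agent.Work.MP_8f87b2_co

namespace NTr

/-- no factor `111` -/
def NT (l : List Bool) : Prop := ∀ u v, l ≠ u ++ true :: true :: true :: v

theorem NT.nil : NT [] := by
  intro u v e
  have := congrArg List.length e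
  simp at this

theorem NT.cf {l : List Bool} (h : NT l) : NT (false :: l) := by
  intro u v e
  cases u with
  | nil => simp at e
  | cons x u =>
    rw [List.cons_append, List.cons.injEq] at e
    exact h u v e.2

theorem NT.ttf {l : List Bool} (h : NT l) : NT (true :: true :: false :: l) := by
  intro u v e
  rcases u with _ | ⟨x, _ | ⟨y, u⟩⟩
  · simp at e
  · simp at e
  · rw [List.cons_append, List.cons.injEq, List.cons_append, List.cons.injEq] at e
    exact h.cf u v e.2.2

theorem NT.app {l m : List Bool} (h : NT l) (h' : NT m) : NT (l ++ false :: m) := by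
  intro u v e
  rcases List.append_eq_append_iff.1 e with ⟨c, h1, h2⟩ | ⟨c, h1, h2⟩
  · -- `u = l ++ c`, `false :: m = c ++ ..`
    cases c with
    | nil => simp at h2
    | cons x c =>
      rw [List.cons_append, List.cons.injEq] at h2
      exact h' c v h2.2
  · -- `l = u ++ c`, `111 v = c ++ false :: m`
    rcases c with _ | ⟨x, _ | ⟨y, _ | ⟨z, c⟩⟩⟩
    · simp at h2
    · simp at h2
    · simp at h2
    · simp only [List.cons_append, List.cons.injEq] at h2
      obtain ⟨rfl, rfl, rfl, -⟩ := h2
      exact h u c h1

theorem ht_one {A : BinaryTree Unit} (hA : A ≠ .nil) (h1 : ht A ≤ 1)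
    (h : (raise (cont A)).count 1 = 0) : A = .nil △ .nil := by
  cases A with
  | nil => exact absurd rfl hA
  | node u A1 A2 =>
    change ht (A1 △ A2) ≤ 1 at h1
    change (raise (cont (A1 △ A2))).count 1 = 0 at h
    rw [ht_node] at h1
    have e1 : A1 = .nil := by
      rw [← cont_eq_zero]
      by_contra h0
      have h2 := sup_mem h0
      have h3 := cont_pos A1 _ h2
      rw [← ht_eq] at h3
      omega
    subst e1
    have e2 : A2 = .nil := by
      rw [← cont_eq_zero]
      by_contra h0
      have h2 := sup_mem h0
      have h3 := cont_pos A2 _ h2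
      rw [← ht_eq] at h2 h3
      have h4 : ht A2 = 1 := by omega
      rw [h4] at h2
      have h5 : (cont ((.nil : BinaryTree Unit) △ A2)).sup = 1 := by
        rw [← ht_eq, ht_node]
        have : ht (.nil : BinaryTree Unit) = 0 := rfl
        omega
      have h6 : raise (cont ((.nil : BinaryTree Unit) △ A2)) = 2 ::ₘ cont A2 := by
        have h7 : cont ((.nil : BinaryTree Unit) △ A2) = 1 ::ₘ cont A2 := by
          rw [cont_node, cont_nil, raise_zero, Multiset.singleton_add]
        unfold raise
        rw [h5, h7, Multiset.erase_cons_head]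
      rw [h6, Multiset.count_cons_of_ne (by norm_num)] at h
      exact (Multiset.count_eq_zero.1 h) h2
    subst e2
    rfl

/-- only parts 2 -/
theorem NT_two {C : BinaryTree Unit} : (cont C).count 1 = 0 → J.c3 (cont C) = 0 → NT (wd C) := by
  induction C with
  | nil => intro _ _; exact NT.nil
  | node u A D _ ihD =>
    intro h1 h3
    change (cont (A △ D)).count 1 = 0 at h1
    change J.c3 (cont (A △ D)) = 0 at h3
    rw [cont_node, Multiset.count_add] at h1
    rw [cont_node, J.c3_add] at h3
    have hA : A ≠ .nil := by
      rintro rfl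
      rw [cont_nil, raise_zero, Multiset.count_singleton_self] at h1
      omega
    have h4 : ht A ≤ 1 := by
      by_contra h5
      have h6 : (cont A).sup + 1 ∈ raise (cont A) := by
        unfold raise
        exact Multiset.mem_cons_self _ _
      have h7 : 0 < J.c3 (raise (cont A)) := by
        unfold J.c3
        exact Multiset.countP_pos.2 ⟨_, h6, by rw [← ht_eq]; omega⟩
      omega
    have e := ht_one hA h4 (by omega)
    subst e
    change NT (wd ((.nil △ .nil) △ D))
    have e2 : wd (((.nil : BinaryTree Unit) △ .nil) △ D) = true :: true :: false :: false :: wd D := rfl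
    rw [e2]
    exact (ihD (by omega) (by omega)).cf.ttf

theorem c3_raise_ge (M : Multiset ℕ) : J.c3 M ≤ J.c3 (raise M) := by
  by_cases h0 : M = 0
  · subst h0
    exact Nat.zero_le _
  have h1 := Multiset.cons_erase (sup_mem h0)
  have h2 : J.c3 M = J.c3 (M.erase M.sup) + if 3 ≤ M.sup then 1 else 0 := by
    conv_lhs => rw [← h1]
    unfold J.c3
    rw [Multiset.countP_cons]
  have h3 : J.c3 (raise M) = J.c3 (M.erase M.sup) + if 3 ≤ M.sup + 1 then 1 else 0 := by
    unfold J.c3 raise
    rw [Multiset.countP_cons]
  rw [h2, h3]
  split <;> split <;> omega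

/-- **one part larger than 2, no part 1: no `111` after the first maximum** -/
theorem one_FM_NT {Y : BinaryTree Unit} : Y ≠ .nil → (cont Y).count 1 = 0 → J.c3 (cont Y) ≤ 1 →
    ∃ a b, H1.FM Y a b ∧ NT b := by
  induction Y with
  | nil => intro h; exact absurd rfl h
  | node u A C ihA ihC =>
    intro _ h1 h3
    change (cont (A △ C)).count 1 = 0 at h1
    change J.c3 (cont (A △ C)) ≤ 1 at h3
    change ∃ a b, H1.FM (A △ C) a b ∧ NT b
    rw [cont_node, Multiset.count_add] at h1
    rw [cont_node, J.c3_add] at h3
    have hA : A ≠ .nil := by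
      rintro rfl
      rw [cont_nil, raise_zero, Multiset.count_singleton_self] at h1
      omega
    have eA : Tsq.ht A = ht A := H1.ht_eq A
    have eC : Tsq.ht C = ht C := H1.ht_eq C
    by_cases hc : ht A + 1 < ht C
    · -- the first maximum is in `C`
      have hC : C ≠ .nil := by
        rintro rfl
        simp [ht] at hc
      obtain ⟨a, b, h4, h5⟩ := ihC hC (by omega) (by omega)
      refine ⟨_, b, h4.app_left (P := A △ .nil) ?_, h5⟩
      rw [Tsq.ht_node, eA, eC]
      have : Tsq.ht (.nil : BinaryTree Unit) = 0 := rfl
      omega
    · have hle : Tsq.ht C ≤ Tsq.ht A + 1 := by omega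
      rcases Nat.lt_or_ge (ht A) 2 with h2 | h2
      · -- `A = ()`
        have e := ht_one hA (by omega) (by omega)
        subst e
        have h4 : H1.FM ((.nil : BinaryTree Unit) △ .nil) [] [false] := by
          refine ⟨rfl, ?_, ?_⟩
          · intro m
            have : Tsq.ht ((.nil : BinaryTree Unit) △ .nil) = 1 := rfl
            rw [this]
            simp
          · have : Tsq.ht ((.nil : BinaryTree Unit) △ .nil) = 1 := rfl
            rw [this]
            simp
        refine ⟨_, _, h4.node hle, ?_⟩
        have h5 : NT (wd C) := by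
          apply NT_two (by omega)
          apply J.c3_two
          intro p hp
          have h6 : p ≤ (cont C).sup := Multiset.le_sup hp
          rw [← ht_eq] at h6
          have : ht ((.nil : BinaryTree Unit) △ .nil) = 1 := rfl
          omega
        exact (NT.nil.cf).app h5
      · have h4 : (cont A).count 1 = 0 := by
          have h5 := count_raise (M := cont A) 1 (by rw [← ht_eq]; omega) (by rw [← ht_eq]; omega)
          omega
        have h6 := c3_raise_ge (cont A)
        obtain ⟨a, b, h7, h8⟩ := ihA hA h4 (by omega)
        refine ⟨_, _, h7.node hle, h8.app ?_⟩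
        apply NT_two (by omega)
        have h9 : 0 < J.c3 (raise (cont A)) := by
          unfold J.c3
          refine Multiset.countP_pos.2 ⟨(cont A).sup + 1, ?_, by rw [← ht_eq]; omega⟩
          unfold raise
          exact Multiset.mem_cons_self _ _
        omega

end NTr

end Pool.OddHC
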