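import Pool.Agent.Work.MP_8f87b2_h68.JVI
import Pool.Agent.Work.MP_8f87b2_h22.JC
import Pool.Agent.Work.MP_8f87b2_h57.J3Rows
import Pool.Agent.Work.MP_8f87b2_h37.JVi2
import Pool.Agent.Work.MP_8f87b2_h40.TyJ4
import Pool.Agent.Work.MP_8f87b2_h21.NT

/-!
# MP_8f87b2_co: rows of the matrix for `JV = Is9 nil nil S` (helper21)

I-{H, NM, JY, J5, J4}-JV; I-JV-JG (all one soliton gadgets: general `S` with a side condition, START, rule TE); I-JV-H;
I-JV-JV (general form `Is9.inner_JV`, rule TE `Is9.inner_JV_te`). The words of JV have the shape `NJS` (helper68), the inner words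
`T((S()))`, `T((S)())` the shape `NIS`; the third inner word `T(((S)))` has no part 1 and with rule TE it is not prime.
-/

set_option autoImplicit false

namespace Pool.OddHC

open Finset Equiv BinaryTree Pool.Agent.Work.MP_8f87b2_co

variable {k : ℕ} {F F' : Set (Cyc k)} {g g' : DG k} {S S' : BinaryTree Unit}

open SRun

/-! ### Inner words of the one soliton gadgets against JV -/

theorem TyJ4.nis (h : TyJ4 F g) : ∀ p ∈ g.arcs, ∀ w ∈ innA p, NIS w := by
  obtain ⟨p, D, D', u, w0, h1, hp, rfl, rfl⟩ := h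
  intro q hq w hw
  have hw' : w = TT q.1 := hw
  obtain ⟨r, hr, rfl⟩ : ∃ r ∈ [(8, 14)],
      q = (J.jX p D 0 D' u w0 r.1, J.jX p D 0 D' u w0 r.2) := hq
  rw [hw']
  simp only [List.mem_cons, List.not_mem_nil, or_false] at hr
  subst hr
  exact NIS.of_W (J.RR_ne p D 0) h1.one (by rw [← H1.ht_eq]; exact h1.htR) (i := 8) (by simp)
    (h1.word w0 (by norm_num))

/-- **I-J3-JV**, all groups of the one soliton classes -/
theorem Hole2.TyH.inner_JV (h : Hole2.TyH F g) (h' : Is9 .nil .nil S F' g' ∨ Is9M .nil .nil S F' g')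
    (h3 : 3 ≤ OddHC.ht S) (h1 : (OddHC.cont S).count 1 = 0) : ∀ p ∈ g.arcs, ∀ w ∈ innA p, w ∉ g'.B :=
  fun p hp w hw => h'.elim (fun h' => (h.nis p hp w hw).not_mem (h'.njs h3 h1))
    (fun h' => (h.nis p hp w hw).not_mem (h'.njs h3 h1))

/-- **I-NM-JV** -/
theorem TyNM.inner_JV (h : TyNM F g) (h' : Is9 .nil .nil S F' g' ∨ Is9M .nil .nil S F' g')
    (h3 : 3 ≤ OddHC.ht S) (h1 : (OddHC.cont S).count 1 = 0) : ∀ p ∈ g.arcs, ∀ w ∈ innA p, w ∉ g'.B :=
  fun p hp w hw => h'.elim (fun h' => (h.nis p hp w hw).not_mem (h'.njs h3 h1))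
    (fun h' => (h.nis p hp w hw).not_mem (h'.njs h3 h1))

/-- **I-JY-JV** -/
theorem TyJY.inner_JV (h : TyJY F g) (h' : Is9 .nil .nil S F' g' ∨ Is9M .nil .nil S F' g')
    (h3 : 3 ≤ OddHC.ht S) (h1 : (OddHC.cont S).count 1 = 0) : ∀ p ∈ g.arcs, ∀ w ∈ innA p, w ∉ g'.B :=
  fun p hp w hw => h'.elim (fun h' => (h.nis p hp w hw).not_mem (h'.njs h3 h1))
    (fun h' => (h.nis p hp w hw).not_mem (h'.njs h3 h1))

/-- **I-J5-JV** -/
theorem TyJ5.inner_JV (h : TyJ5 F g) (h' : Is9 .nil .nil S F' g' ∨ Is9M .nil .nil S F' g')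
    (h3 : 3 ≤ OddHC.ht S) (h1 : (OddHC.cont S).count 1 = 0) : ∀ p ∈ g.arcs, ∀ w ∈ innA p, w ∉ g'.B :=
  fun p hp w hw => h'.elim (fun h' => (h.nis p hp w hw).not_mem (h'.njs h3 h1))
    (fun h' => (h.nis p hp w hw).not_mem (h'.njs h3 h1))

/-- **I-J4-JV** -/
theorem TyJ4.inner_JV (h : TyJ4 F g) (h' : Is9 .nil .nil S F' g' ∨ Is9M .nil .nil S F' g')
    (h3 : 3 ≤ OddHC.ht S) (h1 : (OddHC.cont S).count 1 = 0) : ∀ p ∈ g.arcs, ∀ w ∈ innA p, w ∉ g'.B :=
  fun p hp w hw => h'.elim (fun h' => (h.nis p hp w hw).not_mem (h'.njs h3 h1))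
    (fun h' => (h.nis p hp w hw).not_mem (h'.njs h3 h1))

/-! ### The inner words of JV -/

/-- a set of words with `NJS` can only meet the inner word `T(((S)))` -/
theorem Is9.inner_njs (h : Is9 .nil .nil S F g) (h3 : 3 ≤ OddHC.ht S)
    (h1 : (OddHC.cont S).count 1 = 0) {B : Finset (X k)} (hB : ∀ v ∈ B, NJS v)
    (hT : ∀ x : X k, x.1 = (S △ .nil) △ .nil → TT x ∉ B) :
    ∀ p ∈ g.arcs, ∀ w ∈ innA p, w ∉ B := by
  intro p hp w hw
  rcases h.nis h3 h1 p hp w hw with h4 | ⟨_, rfl, hx⟩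
  · exact h4.not_mem hB
  · exact hT _ hx

theorem Is9M.inner_njs (h : Is9M .nil .nil S F g) (h3 : 3 ≤ OddHC.ht S)
    (h1 : (OddHC.cont S).count 1 = 0) {B : Finset (X k)} (hB : ∀ v ∈ B, NJS v)
    (hT : ∀ x : X k, x.1 = (Tsq.mir S △ .nil) △ .nil → Tsq.mirX (TT x) ∉ B) :
    ∀ p ∈ g.arcs, ∀ w ∈ innA p, w ∉ B := by
  intro p hp w hw
  rcases h.nis h3 h1 p hp w hw with h4 | ⟨_, x, rfl, hx⟩
  · exact h4.not_mem hB
  · exact hT x hx

namespace JV

/-- the content of `T(((S)))` -/
theorem cont3 {x : X k} (hx : x.1 = (S △ .nil) △ .nil) :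
    OddHC.cont (TT x).1 = raise (raise (OddHC.cont S)) := by
  rw [H1.cont_TT, hx, cont_node, cont_node, cont_nil, add_zero, add_zero]

theorem one3 (h3 : 3 ≤ OddHC.ht S) (h1 : (OddHC.cont S).count 1 = 0) {x : X k}
    (hx : x.1 = (S △ .nil) △ .nil) : (OddHC.cont (TT x).1).count 1 = 0 := by
  rw [ht_eq] at h3
  rw [cont3 hx, count_raise 1 (by rw [sup_raise]; omega) (by rw [sup_raise]; omega),
    count_raise 1 (by omega) (by omega), h1]

/-- the word of `T(((S)))` -/
theorem wd3 {x : X k} (hx : x.1 = (S △ .nil) △ .nil) {a b : List Bool} (h : H1.FM S a b) :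
    wd (TT x).1 = b.map not ++ (true :: true :: false :: false :: false :: a.map not) := by
  have hn : Tsq.ht (.nil : BinaryTree Unit) = 0 := rfl
  have k1 := (h.node (Z := .nil) (by rw [hn]; omega)).node (Z := .nil) (by rw [hn]; omega)
  rw [← hx] at k1
  rw [k1.wdT]
  simp [wd]

/-- the height of the path at the end of `b.map not` -/
theorem hb {a b : List Bool} (h : H1.FM S a b) :
    (b.map not).count true = (b.map not).count false + Tsq.ht S := by
  have c1 := (wd_counts S).1
  have c2 := (wd_counts S).2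
  rw [h.eq] at c1 c2
  simp only [List.count_append, List.count_cons] at c1 c2
  simp at c1 c2
  have ctop := h.top
  have d1 : (b.map not).count true = b.count false := by
    have := List.count_map_of_injective b not Bool.not_injective false
    simpa using this
  have d2 : (b.map not).count false = b.count true := by
    have := List.count_map_of_injective b not Bool.not_injective true
    simpa using this
  omega

/-- **`T(((S)))` is not `((B) R)`, if there is no `111` after the first maximum of `S`** -/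
theorem T3_not_BR (h3 : 3 ≤ OddHC.ht S) {a b : List Bool} (fm : H1.FM S a b) (nt : NTr.NT b)
    {x : X k} (hx : x.1 = (S △ .nil) △ .nil) (t : ℕ) (R : BinaryTree Unit) :
    (TT x).1 ≠ (J.b2 (t + 1) △ R) △ .nil := by
  intro e
  have eS : Tsq.ht S = OddHC.ht S := H1.ht_eq S
  have eB : wd (J.b2 (t + 1)) = wd (J.b2 t) ++ [true, true, false, false] := J.wd_b2 t
  have ew : wd ((J.b2 (t + 1) △ R) △ .nil) =
      (true :: true :: (wd (J.b2 (t + 1)) ++ [false])) ++ (wd R ++ [false]) := by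
    simp [wd_node, wd]
  have k2 := wd3 hx fm
  rw [e, ew] at k2
  have hbb := hb fm
  have hcut : ∃ q, b.map not = (true :: true :: (wd (J.b2 (t + 1)) ++ [false])) ++ q := by
    rcases List.append_eq_append_iff.1 k2 with ⟨c, m1, m2⟩ | ⟨c, m1, m2⟩
    · exact ⟨c, m1⟩
    · rcases c with _ | ⟨z, _ | ⟨z', c⟩⟩
      · exact ⟨[], by rw [m1]; simp⟩
      · exfalso
        simp only [List.cons_append, List.cons.injEq, List.nil_append] at m2
        obtain ⟨rfl, -⟩ := m2
        have m6 : (true :: true :: wd (J.b2 (t + 1))) ++ [false] = b.map not ++ [true] := by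
          rw [← m1]
          simp
        have m7 := List.append_inj_right' m6 rfl
        simp at m7
      · exfalso
        simp only [List.cons_append, List.cons.injEq] at m2
        obtain ⟨rfl, rfl, -⟩ := m2
        -- `b.map not ++ [true, true]` is a prefix of the word of `((B))`
        have m3 : wd ((J.b2 (t + 1) △ .nil) △ .nil) =
            (b.map not ++ [true, true]) ++ (c ++ [false]) := by
          have : wd ((J.b2 (t + 1) △ .nil) △ .nil) =
              (true :: true :: (wd (J.b2 (t + 1)) ++ [false])) ++ [false] := by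
            simp [wd_node, wd]
          rw [this, m1]
          simp
        have m4 := Tsq.ht_take ((J.b2 (t + 1) △ .nil) △ .nil) (b.map not ++ [true, true]).length
        rw [m3, List.take_left' rfl] at m4
        have m5 : Tsq.ht ((J.b2 (t + 1) △ .nil) △ .nil) = 4 := by
          have hb2 : Tsq.ht (J.b2 (t + 1)) = 2 := by rw [H1.ht_eq]; exact J.ht_b2' t
          have hn : Tsq.ht (.nil : BinaryTree Unit) = 0 := rfl
          rw [Tsq.ht_node, Tsq.ht_node, hb2, hn]
          rfl
        rw [m5] at m4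
        simp only [List.count_append] at m4
        simp at m4
        omega
  obtain ⟨q, hq⟩ := hcut
  have hb2 : b = ((true :: true :: (wd (J.b2 (t + 1)) ++ [false])) ++ q).map not := by
    rw [← hq, List.map_map]
    have : (not ∘ not) = id := by
      funext z
      cases z <;> rfl
    rw [this, List.map_id]
  rw [eB] at hb2
  refine nt (false :: false :: ((wd (J.b2 t)).map not ++ [false, false])) (q.map not) ?_
  rw [hb2]
  simp

/-- START: `S = [3] Y`, one part larger than 2 in `Y` -/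
theorem T3_not_BR_start {Y : BinaryTree Unit} (hS : S = H1.ch 2 △ Y)
    (h1 : (OddHC.cont S).count 1 = 0) (hc : J.c3 (OddHC.cont S) ≤ 2) (hY : 3 ≤ OddHC.ht Y)
    {x : X k} (hx : x.1 = (S △ .nil) △ .nil) (t : ℕ) (R : BinaryTree Unit) :
    (TT x).1 ≠ (J.b2 (t + 1) △ R) △ .nil := by
  have hY0 : Y ≠ .nil := by
    rintro rfl
    simp [OddHC.ht] at hY
  have hcS : OddHC.cont S = {3} + OddHC.cont Y := by
    rw [hS]
    exact rfl
  have h1Y : (OddHC.cont Y).count 1 = 0 := by
    rw [hcS, Multiset.count_add] at h1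
    omega
  have hcY : J.c3 (OddHC.cont Y) ≤ 1 := by
    rw [hcS, J.c3_add] at hc
    have : J.c3 ({3} : Multiset ℕ) = 1 := rfl
    omega
  have eY : Tsq.ht Y = OddHC.ht Y := H1.ht_eq Y
  have e3 : Tsq.ht (H1.ch 2) = 2 := rfl
  rcases Nat.lt_or_ge 3 (OddHC.ht Y) with h4 | h4
  · obtain ⟨a, b, fm, nt⟩ := NTr.one_FM_NT hY0 h1Y hcY
    have k1 := fm.app_left (P := H1.ch 2 △ .nil) (by
      rw [Tsq.ht_node, e3, eY]
      have : Tsq.ht (.nil : BinaryTree Unit) = 0 := rfl
      omega)
    have e1 : app (H1.ch 2 △ .nil) Y = S := by rw [hS]; rfl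
    rw [e1] at k1
    refine T3_not_BR ?_ k1 nt hx t R
    rw [hS, ht_node]
    omega
  · intro e
    have h5 : OddHC.ht Y = 3 := by omega
    have k0 : H1.FM S [true, true] ([false, false, false] ++ wd Y) := by
      have hh : Tsq.ht S = 3 := by
        rw [hS, Tsq.ht_node, e3, eY, h5]
        rfl
      refine ⟨by rw [hS]; rfl, ?_, ?_⟩
      · intro m
        rw [hh]
        rcases m with _ | _ | _ | m <;> simp
      · rw [hh]
        simp
    have k2 := wd3 hx k0
    have ew : wd ((J.b2 (t + 1) △ R) △ .nil) =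
        (true :: true :: (wd (J.b2 (t + 1)) ++ [false])) ++ (wd R ++ [false]) := by
      simp [wd_node, wd]
    obtain ⟨v, hv⟩ := (Gd_of hY0 h1Y).1.start
    have e6 : J.b2 (t + 1) = J.l1 △ J.b2 t := rfl
    rw [e, ew, hv, e6, wd_node] at k2
    simp [wd] at k2

/-- `T(((S)))` as a word of a one soliton gadget: only `((B) R)` -/
theorem T3_JG (h3 : 3 ≤ OddHC.ht S) (h1 : (OddHC.cont S).count 1 = 0)
    (h2 : 2 ≤ J.c3 (OddHC.cont S)) {x : X k} (hx : x.1 = (S △ .nil) △ .nil)
    {n : ℕ} (hn : 1 ≤ n) {B : Finset (X k)} {P U M : Set (ZMod (2 * n + 1) → ℕ)}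
    (h' : J.JG n B P U M) (hB : TT x ∈ B) : 3 ∈ OddHC.cont S ∧ J.c3 (OddHC.cont S) ≤ 2 ∧
      ∃ (t : ℕ) (R : BinaryTree Unit), (TT x).1 = (J.b2 (t + 1) △ R) △ .nil := by
  have c0 := cont3 hx
  have c1 := one3 h3 h1 hx
  have c2 : 2 ≤ J.c3 (OddHC.cont (TT x).1) := by
    rw [c0]
    exact le_trans h2 (le_trans (NTr.c3_raise_ge _) (NTr.c3_raise_ge _))
  have r2 : ∀ b : ℕ, J.c3 (Multiset.replicate b 2) = 0 := fun b =>
    J.c3_two (fun p hp => le_of_eq (Multiset.eq_of_mem_replicate hp))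
  have r1 : ∀ s : ℕ, J.c3 ({s} : Multiset ℕ) ≤ 1 := by
    intro s
    unfold J.c3
    exact le_trans (Multiset.countP_le_card _ _) (by simp)
  have r0 : J.c3 ({1} : Multiset ℕ) = 0 := rfl
  obtain ⟨s, b, hs3, e | e | e | ⟨e, _⟩ | ⟨e, t, u, D, _, ew⟩⟩ := h'.cases2 hn hB
  · rw [e, J.c3_add, r2] at c2
    have := r1 s
    omega
  · rw [e, J.c3_add, J.c3_add, r2, r0] at c2
    have := r1 s
    omega
  · rw [e, J.c3_add, J.c3_add, J.c3_add, r2, r0] at c2
    have := r1 s
    omega
  · rw [e, Multiset.count_add, Multiset.count_singleton_self] at c1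
    omega
  · have m3 : 3 ∈ OddHC.cont (TT x).1 := by
      rw [e]
      simp
    rw [c0] at m3
    refine ⟨?_, ?_, t, J.RR u D 0, ew⟩
    · rw [ht_eq] at h3
      rcases H1.raise_mem m3 with m4 | m4
      · rw [sup_raise] at m4
        omega
      · rcases H1.raise_mem m4 with m5 | m5
        · omega
        · exact m5
    · have h5 : J.c3 (OddHC.cont (TT x).1) ≤ 2 := by
        rw [e, J.c3_add, J.c3_add, r2]
        have := r1 s
        have := r1 3
        omega
      rw [c0] at h5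
      exact le_trans (le_trans (NTr.c3_raise_ge _) (NTr.c3_raise_ge _)) h5

end JV

/-- **I-JV-J3, I-JV-JM, ..** : inner words of JV against all gadgets of the one soliton classes, general `S` -/
theorem Is9.inner_JG (h : Is9 .nil .nil S F g) (h3 : 3 ≤ OddHC.ht S)
    (h1 : (OddHC.cont S).count 1 = 0) (h2 : 2 ≤ J.c3 (OddHC.cont S))
    (hT : 3 ∈ OddHC.cont S → J.c3 (OddHC.cont S) = 2 → ∀ x : X k, x.1 = (S △ .nil) △ .nil →
      ∀ (t : ℕ) (R : BinaryTree Unit), (TT x).1 ≠ (J.b2 (t + 1) △ R) △ .nil)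
    {n : ℕ} (hn : 1 ≤ n) {B : Finset (X k)} {P U M : Set (ZMod (2 * n + 1) → ℕ)}
    (h' : J.JG n B P U M) : ∀ p ∈ g.arcs, ∀ w ∈ innA p, w ∉ B := by
  refine h.inner_njs h3 h1 (JG_njs hn h') ?_
  intro x hx hB
  obtain ⟨k1, k2, t, R, k3⟩ := JV.T3_JG h3 h1 h2 hx hn h' hB
  exact hT k1 (by omega) x hx t R k3

/-- I-JV-J3, START: if `S` has a part 3, it is `[3] Y`, `ht Y ≥ 3` -/
theorem Is9.inner_JG_start (h : Is9 .nil .nil S F g) (h3 : 3 ≤ OddHC.ht S)
    (h1 : (OddHC.cont S).count 1 = 0) (h2 : 2 ≤ J.c3 (OddHC.cont S))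
    (hs : 3 ∈ OddHC.cont S → ∃ Y, S = H1.ch 2 △ Y ∧ 3 ≤ OddHC.ht Y)
    {n : ℕ} (hn : 1 ≤ n) {B : Finset (X k)} {P U M : Set (ZMod (2 * n + 1) → ℕ)}
    (h' : J.JG n B P U M) : ∀ p ∈ g.arcs, ∀ w ∈ innA p, w ∉ B := by
  refine h.inner_JG h3 h1 h2 ?_ hn h'
  intro k1 k2 x hx t R
  obtain ⟨Y, hY, h4⟩ := hs k1
  exact JV.T3_not_BR_start hY h1 (by omega) h4 hx t R

theorem JV.two_le (h1 : (OddHC.cont S).count 1 = 0) : ∀ x ∈ OddHC.cont S, 2 ≤ x := by
  intro x hx
  have h2 := cont_pos _ x hx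
  have h3 : x ≠ 1 := by
    rintro rfl
    exact (Multiset.count_eq_zero.1 h1) hx
  omega

/-- **I-JV-J3, I-JV-JM, rule TE** -/
theorem Is9.inner_JG_te (h : Is9 .nil .nil S F g) (h3 : 3 ≤ OddHC.ht S)
    (h1 : (OddHC.cont S).count 1 = 0) (h2 : 2 ≤ J.c3 (OddHC.cont S)) (hT : JVI.TE S)
    {n : ℕ} (hn : 1 ≤ n) {B : Finset (X k)} {P U M : Set (ZMod (2 * n + 1) → ℕ)}
    (h' : J.JG n B P U M) : ∀ p ∈ g.arcs, ∀ w ∈ innA p, w ∉ B := by
  intro p hp w hw hB
  rcases h.nis h3 h1 p hp w hw with h4 | ⟨_, e, hx⟩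
  · exact h4.not_mem (JG_njs hn h') hB
  · obtain ⟨_, _, t, R, k3⟩ := JV.T3_JG h3 h1 h2 hx hn h' (by rw [← e]; exact hB)
    rw [← e] at k3
    exact (h.sh (JV.two_le h1) h3 hp hw).not_one hT k3

/-- **I-JV-H**, rule TE: all groups of the one soliton classes -/
theorem Is9.inner_H_te (h : Is9 .nil .nil S F g) (h3 : 3 ≤ OddHC.ht S)
    (h1 : (OddHC.cont S).count 1 = 0) (h2 : 2 ≤ J.c3 (OddHC.cont S)) (hT : JVI.TE S)
    (h' : Hole2.TyH F' g') : ∀ p ∈ g.arcs, ∀ w ∈ innA p, w ∉ g'.B := by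
  obtain ⟨n, hn, P, U, M, h4⟩ := h'.jg
  exact h.inner_JG_te h3 h1 h2 hT hn h4

/-- **I-JV-JV**: an inner word of JV at `S` which is a word of JV at `S'` is `T(((S)))`, and the word is `S'(())`, `(())S'`
(`S'` two higher) or `((S'))`, `(X')` (same height) -/
theorem Is9.inner_JV (h : Is9 .nil .nil S F g) (h' : Is9 .nil .nil S' F' g')
    (h3 : 3 ≤ OddHC.ht S) (h3' : 3 ≤ OddHC.ht S')
    (h1 : (OddHC.cont S).count 1 = 0) (h1' : (OddHC.cont S').count 1 = 0) :
    ∀ p ∈ g.arcs, ∀ w ∈ innA p, w ∈ g'.B → w = TT p.1 ∧ p.1.1 = (S △ .nil) △ .nil ∧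
      ((OddHC.ht S' = OddHC.ht S + 2 ∧ (w.1 = app S' ((.nil △ .nil) △ .nil) ∨
        w.1 = (.nil △ .nil) △ S')) ∨
      (OddHC.ht S' = OddHC.ht S ∧ (w.1 = (S' △ .nil) △ .nil ∨ w.1 = xT S' △ .nil))) := by
  intro p hp w hw hB
  rcases h.nis h3 h1 p hp w hw with h4 | ⟨_, rfl, hx⟩
  · exact absurd hB (h4.not_mem (h'.njs h3' h1'))
  refine ⟨rfl, hx, ?_⟩
  generalize p.1 = x at hx hB
  have c1 := JV.one3 h3 h1 hx
  have hS : S' ≠ .nil := by
    rintro rfl
    simp [OddHC.ht] at h3'
  have hh : OddHC.ht (TT x).1 = OddHC.ht S + 2 := by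
    rw [ht_eq, JV.cont3 hx, sup_raise, sup_raise, ← ht_eq]
  have n0 : OddHC.ht (.nil : BinaryTree Unit) = 0 := rfl
  obtain ⟨i, hi, e, _⟩ := h'.words _ hB
  interval_cases i
  · left
    have e' : (TT x).1 = app S' ((.nil △ .nil) △ .nil) := e
    refine ⟨?_, Or.inl e'⟩
    rw [e', ht_app, ht_node, ht_node, n0] at hh
    omega
  · left
    have e' : (TT x).1 = (.nil △ .nil) △ S' := e
    refine ⟨?_, Or.inr e'⟩
    rw [e', ht_node, ht_node, n0] at hh
    omega
  · exfalso
    have e' : (TT x).1 = (.nil △ S') △ .nil := e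
    have hc : OddHC.cont ((.nil : BinaryTree Unit) △ S') = {1} + OddHC.cont S' := by
      rw [cont_node, cont_nil, raise_zero]
    have hs : ({1} + OddHC.cont S').sup = (OddHC.cont S').sup := by
      rw [Multiset.sup_add, Multiset.sup_singleton]
      rw [ht_eq] at h3'
      exact sup_eq_right.2 (by omega)
    rw [e', cont_node, cont_nil, add_zero, hc, count_raise 1
      (by rw [hs, ← ht_eq]; omega) (by rw [hs, ← ht_eq]; omega), Multiset.count_add,
      Multiset.count_singleton_self] at c1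
    omega
  · right
    have e' : (TT x).1 = (S' △ .nil) △ .nil := e
    refine ⟨?_, Or.inl e'⟩
    rw [e', ht_node, ht_node, n0] at hh
    omega
  · exfalso
    have e' : (TT x).1 = app S' (.nil △ .nil) △ .nil := e
    have hc : OddHC.cont (app S' ((.nil : BinaryTree Unit) △ .nil)) = OddHC.cont S' + {1} := by
      rw [cont_app, cont_node, cont_nil, raise_zero, add_zero]
    have hs : (OddHC.cont S' + {1}).sup = (OddHC.cont S').sup := by
      rw [Multiset.sup_add, Multiset.sup_singleton]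
      rw [ht_eq] at h3'
      exact sup_eq_left.2 (by omega)
    rw [e', cont_node, cont_nil, add_zero, hc, count_raise 1
      (by rw [hs, ← ht_eq]; omega) (by rw [hs, ← ht_eq]; omega), Multiset.count_add,
      Multiset.count_singleton_self] at c1
    omega
  · exfalso
    have e' : (TT x).1 = S' △ (.nil △ .nil) := e
    rw [e', cont_node, cont_node, cont_nil, raise_zero, add_zero, Multiset.count_add,
      Multiset.count_singleton_self] at c1
    omega
  · right
    have e' : (TT x).1 = xT S' △ .nil := e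
    refine ⟨?_, Or.inr e'⟩
    rw [e', ht_node, ht_xT hS, n0] at hh
    omega
  · exfalso
    have e' : (TT x).1 = app (xT S') (.nil △ .nil) := e
    rw [e', cont_app, cont_node, cont_nil, raise_zero, add_zero, Multiset.count_add,
      Multiset.count_singleton_self] at c1
    omega
  · exfalso
    have e' : (TT x).1 = .nil △ xT S' := e
    rw [e', cont_node, cont_nil, raise_zero, Multiset.count_add,
      Multiset.count_singleton_self] at c1
    omega

namespace JV

/-- a component at the end of `comp (b) 0 ..`: impossible -/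
theorem te_contra {a b : List Bool} (fm : H1.FM S a b) {l : List Bool} {A : BinaryTree Unit}
    (e : b ++ [false] = l ++ wd (A △ .nil)) : False := by
  have e1 : wd (A △ .nil) = (true :: wd A) ++ [false] := by
    rw [wd_node]; simp [wd]
  rw [e1, ← List.append_assoc] at e
  have e2 := List.append_inj_left' e rfl
  have c1 := wd_counts S
  have cA := wd_counts A
  have e3 : wd S = (a ++ true :: l) ++ (true :: wd A) := by
    rw [fm.eq, e2]
    simp
  have h1 := wd_take S (a ++ true :: l).length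
  rw [e3, List.take_left' rfl] at h1
  rw [e3] at c1
  simp only [List.count_append, List.count_cons] at c1 h1
  simp at c1 h1
  omega

/-- the first maximum of `T(((S)))` -/
theorem FM3 {x : X k} (hx : x.1 = (S △ .nil) △ .nil) {a b : List Bool} (h : H1.FM S a b) :
    H1.FM (TT x).1 (b.map not ++ [true]) (false :: false :: false :: a.map not) := by
  have hbb := hb h
  have hh : Tsq.ht (TT x).1 = Tsq.ht S + 2 := by
    rw [H1.ht_eq, H1.ht_eq, OddHC.ht_eq, cont3 hx, sup_raise, sup_raise, ← OddHC.ht_eq]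
  refine ⟨by rw [wd3 hx h]; simp, ?_, ?_⟩
  · intro m
    rw [hh]
    rcases Nat.lt_or_ge (b.map not).length m with h4 | h4
    · rw [List.take_of_length_le (by simp at h4 ⊢; omega)]
      simp only [List.count_append]
      simp
      omega
    · rw [List.take_append_of_le_length h4]
      -- heights of `S` after the first maximum are not negative
      have h5 := wd_take S (a.length + 1 + m)
      have c1 := h.top
      rw [h.eq] at h5
      have e1 : (a ++ true :: b).take (a.length + 1 + m) = a ++ true :: b.take m := by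
        rw [List.take_append, List.take_of_length_le (by omega)]
        have : a.length + 1 + m - a.length = m + 1 := by omega
        rw [this, List.take_succ_cons]
      rw [e1] at h5
      simp only [List.count_append, List.count_cons] at h5
      simp at h5
      have d1 : ((b.map not).take m).count true = (b.take m).count false := by
        rw [← List.map_take]
        have := List.count_map_of_injective (b.take m) not Bool.not_injective false
        simpa using this
      have d2 : ((b.map not).take m).count false = (b.take m).count true := by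
        rw [← List.map_take]
        have := List.count_map_of_injective (b.take m) not Bool.not_injective true
        simpa using this
      omega
  · rw [hh]
    simp only [List.count_append]
    simp
    omega

end JV

/-- **I-JV-JV, rule TE** -/
theorem Is9.inner_JV_te (h : Is9 .nil .nil S F g) (h' : Is9 .nil .nil S' F' g')
    (h3 : 3 ≤ OddHC.ht S) (h3' : 3 ≤ OddHC.ht S')
    (h1 : (OddHC.cont S).count 1 = 0) (h1' : (OddHC.cont S').count 1 = 0)
    (hT : JVI.TE S) (hT' : JVI.TE S') : ∀ p ∈ g.arcs, ∀ w ∈ innA p, w ∉ g'.B := by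
  intro p hp w hw hB
  obtain ⟨e, hx, h4⟩ := h.inner_JV h' h3 h3' h1 h1' p hp w hw hB
  have hS0 : S ≠ .nil := by
    rintro rfl
    simp [OddHC.ht] at h3
  have hS0' : S' ≠ .nil := by
    rintro rfl
    simp [OddHC.ht] at h3'
  obtain ⟨a, b, fm, -⟩ := (Gd_of hS0 h1).1.fm (by rw [H1.ht_eq]; exact h3)
  obtain ⟨a', b', fm', -⟩ := (Gd_of hS0' h1').1.fm (by rw [H1.ht_eq]; exact h3')
  obtain ⟨l, A, hA⟩ := hT' a' b' fm'
  have k1 := JV.FM3 hx fm
  rw [← e] at k1
  have hnn : (not ∘ not) = id := by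
    funext z
    cases z <;> rfl
  have en : Tsq.ht (.nil : BinaryTree Unit) = 0 := rfl
  have eS' : Tsq.ht S' = OddHC.ht S' := H1.ht_eq S'
  rcases h4 with ⟨-, e0 | e0⟩ | ⟨-, e0 | e0⟩
  · have k2 := fm'.app_right (Z := (.nil △ .nil) △ .nil) (by
      rw [Tsq.ht_node, Tsq.ht_node, en, eS']; omega)
    rw [← e0] at k2
    obtain ⟨e5, -⟩ := k1.uniq k2
    apply JV.te_contra fm (l := l) (A := A)
    rw [← hA, ← e5, List.map_append, List.map_map, hnn, List.map_id]
    rfl
  · have k2 := fm'.app_left (P := (.nil △ .nil) △ .nil) (by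
      rw [Tsq.ht_node, Tsq.ht_node, en, eS']; omega)
    have e6 : app ((.nil △ .nil) △ .nil) S' = (.nil △ .nil) △ S' := rfl
    rw [e6, ← e0] at k2
    obtain ⟨e5, -⟩ := k1.uniq k2
    apply JV.te_contra fm (l := (wd ((.nil △ .nil) △ .nil : BinaryTree Unit)).map not ++ l) (A := A)
    rw [List.append_assoc, ← hA, ← List.map_append, ← e5, List.map_append, List.map_map, hnn,
      List.map_id]
    rfl
  · exact (h.sh (JV.two_le h1) h3 hp hw).not_one hT e0
  · exact (h.sh (JV.two_le h1) h3 hp hw).not_one hT e0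

end Pool.OddHC
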