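import Pool.Agent.Work.MP_8f87b2_h21.JVi

/-!
# MP_8f87b2_co: I-JV-JV for non sharp phases (helper21)

`NS S`: `S` is not `T` of a doubly prime word. `Is9.inner_JV_ns`: for `S`, `S'` with `NS` no inner word of `Is9 nil nil S` is a
word of `Is9 nil nil S'`. `FMparts`, `FM_of_parts`: a word with a given first maximum.
-/

set_option autoImplicit false

namespace Pool.OddHC

open Finset Equiv BinaryTree Pool.Agent.Work.MP_8f87b2_co

variable {k : ℕ} {F F' : Set (Cyc k)} {g g' : DG k} {S S' : BinaryTree Unit}

namespace JV

/-- `S` is not `T` of a doubly prime word -/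
def NS (S : BinaryTree Unit) : Prop :=
  ∀ (j : ℕ) (y : X j) (Y : BinaryTree Unit), y.1 = (Y △ .nil) △ .nil → (TT y).1 ≠ S

/-- the two parts around the first maximum of a word of height `n` -/
structure FMparts (n : ℕ) (u v : List Bool) : Prop where
  lo : ∀ m, (u.take m).count false ≤ (u.take m).count true
  hi : ∀ m, (u.take m).count true + 1 ≤ (u.take m).count false + n
  top : u.count true + 1 = u.count false + n
  lo' : ∀ m, (v.take m).count false ≤ (v.take m).count true + n
  hi' : ∀ m, (v.take m).count true ≤ (v.take m).count false
  bot : v.count false = v.count true + n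

theorem parts_of {a b : List Bool} (h : H1.FM S a b) : FMparts (Tsq.ht S) a b := by
  have hb1 := hb h
  rw [Tsq.count_not_true, Tsq.count_not_false] at hb1
  have key : ∀ m, (wd S).take (a.length + 1 + m) = a ++ true :: b.take m := by
    intro m
    rw [h.eq, List.take_append, List.take_of_length_le (by omega)]
    have : a.length + 1 + m - a.length = m + 1 := by omega
    rw [this, List.take_succ_cons]
  have htop := h.top
  refine ⟨?_, h.pre, h.top, ?_, ?_, hb1⟩
  · intro m
    rcases Nat.lt_or_ge a.length m with h4 | h4
    · have h1 := wd_take S a.length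
      rw [h.eq, List.take_left' rfl] at h1
      rw [List.take_of_length_le (by omega)]
      exact h1
    · have h1 := wd_take S m
      rw [h.eq, List.take_append_of_le_length h4] at h1
      exact h1
  · intro m
    have h5 := wd_take S (a.length + 1 + m)
    rw [key] at h5
    simp only [List.count_append, List.count_cons] at h5
    simp at h5
    omega
  · intro m
    have h5 := Tsq.ht_take S (a.length + 1 + m)
    rw [key] at h5
    simp only [List.count_append, List.count_cons] at h5
    simp at h5
    omega

theorem FM_of_parts {n : ℕ} {u v : List Bool} (h : FMparts n u v) : ∃ t, H1.FM t u v := by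
  have htop := h.top
  have hbot := h.bot
  have hts : ∀ m, (u ++ true :: v).take (u.length + 1 + m) = u ++ true :: v.take m := by
    intro m
    rw [List.take_append, List.take_of_length_le (by omega)]
    have : u.length + 1 + m - u.length = m + 1 := by omega
    rw [this, List.take_succ_cons]
  obtain ⟨t, ht⟩ := Tsq.dyck_tree (u ++ true :: v) (by
    simp only [List.count_append, List.count_cons]
    simp
    omega) (by
    intro m
    rcases Nat.lt_or_ge u.length m with h4 | h4
    · obtain ⟨i, rfl⟩ : ∃ i, m = u.length + 1 + i := ⟨m - (u.length + 1), by omega⟩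
      rw [hts]
      have h5 := h.lo' i
      simp only [List.count_append, List.count_cons]
      simp
      omega
    · rw [List.take_append_of_le_length h4]
      exact h.lo m)
  have hn : n ≤ Tsq.ht t := by
    have h5 := Tsq.ht_take t (u.length + 1 + 0)
    rw [ht, hts] at h5
    simp only [List.count_append, List.count_cons, List.take_zero] at h5
    simp at h5
    omega
  have hn' : Tsq.ht t ≤ n := by
    have h0 : t ≠ .nil := by
      rintro rfl
      simp [wd] at ht
    obtain ⟨a, c, h1, -, h3, h4, -, -, -⟩ := Tsq.sq_spec t h0
    rw [ht] at h1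
    -- the prefix `a 1` of height `ht t`
    have h5 : (u ++ true :: v).take (a.length + 1) = a ++ [true] := by
      rw [h1, List.take_append, List.take_of_length_le (by omega)]
      have : a.length + 1 - a.length = 0 + 1 := by omega
      rw [this, List.take_succ_cons, List.take_zero]
    have h6 : (a ++ [true]).count true ≤ (a ++ [true]).count false + n := by
      rcases Nat.lt_or_ge u.length (a.length + 1) with h7 | h7
      · obtain ⟨i, hi⟩ : ∃ i, a.length + 1 = u.length + 1 + i := ⟨a.length + 1 - (u.length + 1), by omega⟩
        rw [hi, hts] at h5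
        rw [← h5]
        have h8 := h.hi' i
        simp only [List.count_append, List.count_cons]
        simp
        omega
      · rw [List.take_append_of_le_length h7] at h5
        have h8 := h.hi (a.length + 1)
        rw [h5] at h8
        omega
    simp only [List.count_append] at h6
    simp at h6
    omega
  have e : Tsq.ht t = n := le_antisymm hn' hn
  refine ⟨t, ht, ?_, ?_⟩
  · rw [e]
    exact h.hi
  · rw [e]
    exact h.top

theorem sharp_of {t : BinaryTree Unit} {u v : List Bool} (fm : H1.FM t u v)
    (h : wd S = v.map not ++ (true :: true :: false :: false :: false :: u.map not)) : ¬ NS S := by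
  intro hN
  let y : X ((t △ .nil) △ .nil : BinaryTree Unit).numNodes :=
    ⟨(t △ .nil) △ .nil, mem_treesOfNumNodesEq.2 rfl⟩
  have h1 : wd (TT y).1 = wd S := by
    rw [h]
    exact wd3 (x := y) rfl fm
  exact hN _ y t rfl (wd_ext h1)

theorem not_not_map (l : List Bool) : (l.map not).map not = l := by
  rw [List.map_map]
  have : (not ∘ not) = id := by
    funext z
    cases z <;> rfl
  rw [this, List.map_id]

/-- `T(((S))) = S'(())` -/
theorem sharp0 (h1 : (OddHC.cont S).count 1 = 0) (h3 : 3 ≤ OddHC.ht S) {x : X k}
    (hx : x.1 = (S △ .nil) △ .nil) (e : (TT x).1 = app S' ((.nil △ .nil) △ .nil)) : ¬ NS S' := by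
  have hS0 : S ≠ .nil := by
    rintro rfl
    simp [OddHC.ht] at h3
  obtain ⟨a, b, fm, -⟩ := (SRun.Gd_of hS0 h1).1.fm (by rw [H1.ht_eq]; exact h3)
  have k1 := wd3 hx fm
  rw [e, wd_app] at k1
  have e2 : wd ((.nil △ .nil) △ .nil : BinaryTree Unit) = [true, true, false, false] := rfl
  rw [e2] at k1
  have hp := parts_of fm
  have htop := hp.top
  have hS : Tsq.ht S = OddHC.ht S := H1.ht_eq S
  have hlen : 2 ≤ a.length := by
    have : a.count true ≤ a.length := List.count_le_length
    omega
  -- the end of `a`
  obtain ⟨c, hc⟩ : ∃ c, a.map not = c ++ [true, true, false, false] := by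
    rcases List.eq_nil_or_concat (a.map not) with h5 | ⟨l1, z1, h5⟩
    · have := congrArg List.length h5
      simp at this
      rw [this] at hlen
      simp at hlen
    rcases List.eq_nil_or_concat l1 with h6 | ⟨l2, z2, h6⟩
    · have := congrArg List.length h5
      rw [h6] at this
      simp at this
      omega
    rcases List.eq_nil_or_concat l2 with h7 | ⟨l3, z3, h7⟩
    · exfalso
      rw [h5, h6, h7] at k1
      have k2 : wd S' ++ [true, true, false, false] = (b.map not ++ [true, true, false]) ++
          [false, false, z2, z1] := by rw [k1]; simp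
      have := List.append_inj_right' k2 rfl
      simp at this
    rcases List.eq_nil_or_concat l3 with h8 | ⟨l4, z4, h8⟩
    · exfalso
      rw [h5, h6, h7, h8] at k1
      have k2 : wd S' ++ [true, true, false, false] = (b.map not ++ [true, true, false, false]) ++
          [false, z3, z2, z1] := by rw [k1]; simp
      have := List.append_inj_right' k2 rfl
      simp at this
    · refine ⟨l4, ?_⟩
      have e5 : a.map not = l4 ++ [z4, z3, z2, z1] := by
        rw [h5, h6, h7, h8]
        simp
      rw [e5] at k1
      have k2 : wd S' ++ [true, true, false, false] = (b.map not ++ ([true, true, false, false, false]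
          ++ l4)) ++ [z4, z3, z2, z1] := by rw [k1]; simp
      have := List.append_inj_right' k2 rfl
      rw [e5, ← this]
  have ha : a = c.map not ++ [false, false, true, true] := by
    rw [← not_not_map a, hc, List.map_append]
    rfl
  rw [hc] at k1
  have k2 : wd S' ++ [true, true, false, false] = (b.map not ++ (true :: true :: false :: false ::
      false :: c)) ++ [true, true, false, false] := by rw [k1]; simp
  have k3 := List.append_inj_left' k2 rfl
  obtain ⟨t, ht⟩ := FM_of_parts (n := Tsq.ht S) (u := c.map not) (v := b) (by
    refine ⟨?_, ?_, ?_, hp.lo', hp.hi', hp.bot⟩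
    · intro m
      rcases Nat.lt_or_ge (c.map not).length m with h4 | h4
      · have h5 := hp.lo (c.map not).length
        rw [ha, List.take_left' rfl] at h5
        rw [List.take_of_length_le (by omega)]
        exact h5
      · have h5 := hp.lo m
        rw [ha, List.take_append_of_le_length h4] at h5
        exact h5
    · intro m
      rcases Nat.lt_or_ge (c.map not).length m with h4 | h4
      · have h5 := hp.hi (c.map not).length
        rw [ha, List.take_left' rfl] at h5
        rw [List.take_of_length_le (by omega)]
        exact h5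
      · have h5 := hp.hi m
        rw [ha, List.take_append_of_le_length h4] at h5
        exact h5
    · rw [ha] at htop
      simp only [List.count_append] at htop
      simp at htop ⊢
      omega)
  apply sharp_of ht
  rw [k3, not_not_map]

/-- `T(((S))) = (())S'` -/
theorem sharp1 (h1 : (OddHC.cont S).count 1 = 0) (h3 : 3 ≤ OddHC.ht S) {x : X k}
    (hx : x.1 = (S △ .nil) △ .nil) (e : (TT x).1 = (.nil △ .nil) △ S') : ¬ NS S' := by
  have hS0 : S ≠ .nil := by
    rintro rfl
    simp [OddHC.ht] at h3
  obtain ⟨a, b, fm, -⟩ := (SRun.Gd_of hS0 h1).1.fm (by rw [H1.ht_eq]; exact h3)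
  have k1 := wd3 hx fm
  have e2 : wd ((.nil △ .nil) △ S' : BinaryTree Unit) = true :: true :: false :: false :: wd S' := rfl
  rw [e, e2] at k1
  have hp := parts_of fm
  have hbot := hp.bot
  have hS : Tsq.ht S = OddHC.ht S := H1.ht_eq S
  have hlen : 3 ≤ b.length := by
    have : b.count false ≤ b.length := List.count_le_length
    omega
  obtain ⟨c, hc⟩ : ∃ c, b = false :: false :: true :: true :: c := by
    rcases b with _ | ⟨z1, _ | ⟨z2, _ | ⟨z3, _ | ⟨z4, c⟩⟩⟩⟩
    · simp at hlen
    · simp at hlen
    · simp at hlen
    · simp at k1
    · simp at k1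
      obtain ⟨h5, h6, h7, h8, -⟩ := k1
      exact ⟨c, by rw [h5, h6, h7, h8]⟩
  have k3 : wd S' = (c.map not) ++ (true :: true :: false :: false :: false :: a.map not) := by
    rw [hc] at k1
    simpa using k1
  obtain ⟨t, ht⟩ := FM_of_parts (n := Tsq.ht S) (u := a) (v := c) (by
    refine ⟨hp.lo, hp.hi, hp.top, ?_, ?_, ?_⟩
    · intro m
      have h5 := hp.lo' (m + 4)
      rw [hc] at h5
      simp at h5
      omega
    · intro m
      have h5 := hp.hi' (m + 4)
      rw [hc] at h5
      simp at h5
      omega
    · rw [hc] at hbot
      simp at hbot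
      omega)
  exact sharp_of ht k3

/-- `T(((S))) = ((S'))` -/
theorem sharp3 (h1 : (OddHC.cont S).count 1 = 0) (h3 : 3 ≤ OddHC.ht S) {x : X k}
    (hx : x.1 = (S △ .nil) △ .nil) (e : (TT x).1 = (S' △ .nil) △ .nil) : ¬ NS S' := by
  have hS0 : S ≠ .nil := by
    rintro rfl
    simp [OddHC.ht] at h3
  obtain ⟨a, b, fm, -⟩ := (SRun.Gd_of hS0 h1).1.fm (by rw [H1.ht_eq]; exact h3)
  have k1 := wd3 hx fm
  have e2 : wd ((S' △ .nil) △ .nil : BinaryTree Unit) = true :: true :: (wd S' ++ [false, false]) := by
    simp [wd]
  rw [e, e2] at k1
  have hp := parts_of fm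
  have htop := hp.top
  have hbot := hp.bot
  have hS : Tsq.ht S = OddHC.ht S := H1.ht_eq S
  have hlen : 3 ≤ b.length := by
    have : b.count false ≤ b.length := List.count_le_length
    omega
  have hlena : 2 ≤ a.length := by
    have : a.count true ≤ a.length := List.count_le_length
    omega
  obtain ⟨c, hc⟩ : ∃ c, b = false :: false :: c := by
    rcases b with _ | ⟨z1, _ | ⟨z2, c⟩⟩
    · simp at hlen
    · simp at hlen
    · simp at k1
      obtain ⟨h5, h6, -⟩ := k1
      exact ⟨c, by rw [h5, h6]⟩
  obtain ⟨d, hd⟩ : ∃ d, a.map not = d ++ [false, false] := by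
    rcases List.eq_nil_or_concat (a.map not) with h5 | ⟨l1, z1, h5⟩
    · have := congrArg List.length h5
      simp at this
      rw [this] at hlena
      simp at hlena
    rcases List.eq_nil_or_concat l1 with h6 | ⟨l2, z2, h6⟩
    · have := congrArg List.length h5
      rw [h6] at this
      simp at this
      omega
    refine ⟨l2, ?_⟩
    have e5 : a.map not = l2 ++ [z2, z1] := by
      rw [h5, h6]
      simp
    rw [e5] at k1
    have k2 : (true :: true :: wd S') ++ [false, false] = (b.map not ++ ([true, true, false, false,
        false] ++ l2)) ++ [z2, z1] := by simpa using k1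
    have := List.append_inj_right' k2 rfl
    rw [e5, ← this]
  have ha : a = d.map not ++ [true, true] := by
    rw [← not_not_map a, hd, List.map_append]
    rfl
  have k3 : wd S' = (c.map not) ++ (true :: true :: false :: false :: false :: d) := by
    rw [hc, hd] at k1
    have k2 : (true :: true :: wd S') ++ [false, false] = (true :: true :: ((c.map not) ++ (true ::
        true :: false :: false :: false :: d))) ++ [false, false] := by simpa using k1
    have k4 := List.append_inj_left' k2 rfl
    simpa using k4
  have hn : 2 ≤ Tsq.ht S := by omega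
  obtain ⟨t, ht⟩ := FM_of_parts (n := Tsq.ht S - 2) (u := d.map not) (v := c) (by
    rw [hc] at hbot
    simp at hbot
    have htop' := htop
    rw [ha] at htop'
    simp only [List.count_append] at htop'
    simp at htop'
    have hcb : c.count false + 2 = c.count true + Tsq.ht S := by omega
    have hm1 : (c.map not).count true = c.count false := Tsq.count_not_true c
    have hm2 : (c.map not).count false = c.count true := Tsq.count_not_false c
    refine ⟨?_, ?_, ?_, ?_, ?_, ?_⟩
    · intro m
      rcases Nat.lt_or_ge (d.map not).length m with h4 | h4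
      · have h5 := hp.lo (d.map not).length
        rw [ha, List.take_left' rfl] at h5
        rw [List.take_of_length_le (by omega)]
        exact h5
      · have h5 := hp.lo m
        rw [ha, List.take_append_of_le_length h4] at h5
        exact h5
    · intro m
      rw [← List.map_take, Tsq.count_not_true, Tsq.count_not_false]
      -- heights of `S'` are not negative
      have h5 := wd_take S' ((c.map not).length + 5 + m)
      rw [k3] at h5
      have e6 : ((c.map not) ++ (true :: true :: false :: false :: false :: d)).take
          ((c.map not).length + 5 + m) = (c.map not) ++ (true :: true :: false :: false :: false ::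
            d.take m) := by
        rw [List.take_append, List.take_of_length_le (by omega)]
        have : (c.map not).length + 5 + m - (c.map not).length = m + 5 := by omega
        rw [this]
        simp
      rw [e6] at h5
      simp only [List.count_append, List.count_cons] at h5
      simp only [hm1, hm2] at h5
      simp at h5
      omega
    · omega
    · intro m
      have h5 := hp.lo' (m + 2)
      rw [hc] at h5
      simp at h5
      omega
    · intro m
      have h5 := wd_take S' m
      rcases Nat.lt_or_ge (c.map not).length m with h4 | h4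
      · have h6 := wd_take S' (c.map not).length
        rw [k3, List.take_left' rfl, hm1, hm2] at h6
        rw [List.take_of_length_le (by simpa using h4.le)]
        exact h6
      · rw [k3, List.take_append_of_le_length h4, ← List.map_take, Tsq.count_not_true,
          Tsq.count_not_false] at h5
        exact h5
    · omega)
  apply sharp_of ht
  rw [k3, not_not_map]

theorem FM_exists (h : S ≠ .nil) : ∃ a b, H1.FM S a b := by
  obtain ⟨a, c, h1, -, h3, h4, -, -, -⟩ := Tsq.sq_spec S h
  exact ⟨a, _, h1, h3, h4⟩

/-- rule TE gives a non sharp phase -/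
theorem NS_of_TE (h3 : 3 ≤ OddHC.ht S) (hT : JVI.TE S) : NS S := by
  intro j y Y hy e
  have hY : Y ≠ .nil := by
    rintro rfl
    have h4 : OddHC.ht (TT y).1 = OddHC.ht y.1 := by
      rw [OddHC.ht_eq, H1.cont_TT, ← OddHC.ht_eq]
    rw [e, hy] at h4
    have : OddHC.ht (((.nil : BinaryTree Unit) △ .nil) △ .nil) = 2 := rfl
    omega
  obtain ⟨a, b, fm⟩ := FM_exists hY
  have k1 := FM3 hy fm
  rw [e] at k1
  obtain ⟨l, A, hA⟩ := hT _ _ k1
  apply te_contra fm (l := l) (A := A)
  rw [← hA, List.map_append, not_not_map]
  rfl

end JV

/-- **I-JV-JV, non sharp phases** -/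
theorem Is9.inner_JV_ns (h : Is9 .nil .nil S F g) (h' : Is9 .nil .nil S' F' g')
    (h3 : 3 ≤ OddHC.ht S) (h3' : 3 ≤ OddHC.ht S')
    (h1 : (OddHC.cont S).count 1 = 0) (h1' : (OddHC.cont S').count 1 = 0)
    (hN : JV.NS S) (hN' : JV.NS S') : ∀ p ∈ g.arcs, ∀ w ∈ innA p, w ∉ g'.B := by
  intro p hp w hw hB
  obtain ⟨e, hx, h4⟩ := h.inner_JV h' h3 h3' h1 h1' p hp w hw hB
  rcases h4 with ⟨-, e0 | e0⟩ | ⟨-, e0 | e0⟩
  · rw [e] at e0
    exact JV.sharp0 h1 h3 hx e0 hN'
  · rw [e] at e0
    exact JV.sharp1 h1 h3 hx e0 hN'
  · rw [e] at e0
    exact JV.sharp3 h1 h3 hx e0 hN'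
  · obtain ⟨w', h5, -, -⟩ := h'
    have h6 : w = w' 6 := by
      apply Subtype.ext
      rw [e0, h5.word 6 (by norm_num)]
      rfl
    have h7 := h5.arcs.1
    rw [← h6, e] at h7
    have h8 : TT (w' 3) = p.1 := TT.injective h7
    have h9 : (TT (w' 3)).1 = (S △ .nil) △ .nil := by rw [h8]; exact hx
    exact JV.sharp3 h1' h3' (h5.word 3 (by norm_num)) h9 hN

end Pool.OddHC
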