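import Pool.Agent.Work.MP_8f87b2_h71ae.AE
import Pool.Agent.Work.MP_8f87b2_h6.TyJ3V

/-!
MP_8f87b2_co, row W-A-J3V (helper21): the words of a window of type A with a bead (part 1) against the 19 words of J3V
(`SqD k R B S`). The only common word is the word 0 of the window and the word 14 = `(()S)B` of J3V, exactly if
`B1 = nil`, `H s = ()S` and `B = B' [q + 3]`.
-/

set_option autoImplicit false

namespace Pool.OddHC

open BinaryTree Equiv Multiset H1

namespace AJ3V

variable {k q : ℕ} {A B C D P Q R S X Y Z : BinaryTree Unit}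

/-- number of parts 1 -/
def c1 (t : BinaryTree Unit) : ℕ := (OddHC.cont t).count 1

/-- number of parts 1 in the components that are not `()` -/
def hb : BinaryTree Unit → ℕ
  | .nil => 0
  | .node _ A Y => (if isNil A = true then 0 else (raise (OddHC.cont A)).count 1) + hb Y

theorem c1_nil : c1 .nil = 0 := by
  unfold c1; rw [cont_nil]; rfl

theorem c1_app (P Q : BinaryTree Unit) : c1 (app P Q) = c1 P + c1 Q := by
  unfold c1; rw [cont_app, Multiset.count_add]

theorem c1_node (A Y : BinaryTree Unit) : c1 (A △ Y) = (raise (OddHC.cont A)).count 1 + c1 Y := by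
  unfold c1; rw [cont_node, Multiset.count_add]

theorem c1_leaf (Y : BinaryTree Unit) : c1 (.nil △ Y) = 1 + c1 Y := by
  rw [c1_node, cont_nil, raise_zero]; rfl

theorem raise_lt {M : Multiset ℕ} {x : ℕ} (hx : x < M.sup) : (raise M).count x = M.count x := by
  unfold raise
  rw [Multiset.count_cons_of_ne (by omega), Multiset.count_erase_of_ne (by omega)]

theorem c1_big (h : 2 ≤ OddHC.ht A) (Y : BinaryTree Unit) : c1 (A △ Y) = c1 A + c1 Y := by
  rw [c1_node, raise_lt (by rw [← OddHC.ht_eq]; omega)]; rfl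

theorem ht_pos' (h : A ≠ .nil) : 1 ≤ OddHC.ht A := by
  cases A with
  | nil => exact absurd rfl h
  | node _ C D => change 1 ≤ OddHC.ht (C △ D); rw [ht_node]; omega

theorem c1_ge (A Y : BinaryTree Unit) : c1 A + c1 Y ≤ c1 (A △ Y) + 1 := by
  by_cases h : 2 ≤ OddHC.ht A
  · rw [c1_big h]; omega
  · by_cases h0 : A = .nil
    · subst h0; rw [c1_nil, c1_leaf]; omega
    · have h1 : (OddHC.cont A).sup = 1 := by
        rw [← OddHC.ht_eq]
        have := ht_pos' h0
        omega
      rw [c1_node]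
      unfold raise
      rw [Multiset.count_cons_of_ne (by omega), h1, Multiset.count_erase_self]
      unfold c1
      omega

/-- no part 1: height at least 2 -/
theorem ht_two (h : c1 A = 0) (h0 : A ≠ .nil) : 2 ≤ OddHC.ht A := by
  by_contra h1
  have h2 := ht_pos' h0
  have h3 : (OddHC.cont A).sup = 1 := by rw [← OddHC.ht_eq]; omega
  have h4 : OddHC.cont A ≠ 0 := fun e => by rw [e] at h3; simp at h3
  obtain ⟨x, hx⟩ := Multiset.exists_mem_of_ne_zero h4
  have h5 : x ≤ 1 := by rw [← h3]; exact Multiset.le_sup hx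
  have h6 : 1 ≤ x := cont_pos _ x hx
  obtain rfl : x = 1 := by omega
  have := Multiset.count_pos.2 hx
  unfold c1 at h
  omega

theorem hb_leaf (Y : BinaryTree Unit) : hb (.nil △ Y) = hb Y := by
  change 0 + hb Y = _
  rw [zero_add]

theorem hb_node (h : A ≠ .nil) (Y : BinaryTree Unit) : hb (A △ Y) = c1 (A △ .nil) + hb Y := by
  change (if isNil A = true then 0 else _) + hb Y = _
  rw [if_neg (by rw [isNil_f.2 h]; simp), c1_node, c1_nil, add_zero]

theorem hb_app (P Q : BinaryTree Unit) : hb (app P Q) = hb P + hb Q := by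
  induction P with
  | nil => change hb Q = 0 + hb Q; omega
  | node u A Y _ ih =>
    change (if isNil A = true then 0 else _) + hb (app Y Q) = ((if isNil A = true then 0 else _) + hb Y) + hb Q
    rw [ih, add_assoc]

theorem hb_le (t : BinaryTree Unit) : hb t ≤ c1 t := by
  induction t with
  | nil => exact Nat.zero_le _
  | node u A Y _ ih =>
    change _ ≤ c1 (A △ Y)
    change (if isNil A = true then 0 else _) + hb Y ≤ _
    rw [c1_node]
    split_ifs <;> omega

/-! ### The window -/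

/-- what is needed of a window with a bead -/
structure Wn (R B S : BinaryTree Unit) : Prop where
  wd : Wd R B S
  hR : 1 ≤ hb R
  hR2 : 2 ≤ OddHC.ht R
  hS2 : 2 ≤ OddHC.ht S
  cB : c1 B = 0
  shS : ∃ C D, S = C △ D ∧ C ≠ .nil ∧ fb C = false ∧ lastB C = false ∧ c1 D = 0 ∧ 1 ≤ c1 (C △ .nil)

theorem c1_hv {t : BinaryTree Unit} (h : hv t) : c1 t = 0 := by
  induction t with
  | nil => exact c1_nil
  | node u A Y ihA ihY =>
    change c1 (A △ Y) = 0
    obtain ⟨hA, hY⟩ := h
    rcases hA with rfl | ⟨h1, h2⟩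
    · rw [c1_big (by rw [ht_node, ht_node]; omega), c1_node, ihY hY, c1_nil]
      rw [cont_node, cont_nil, raise_zero]
      rfl
    · rw [c1_big (ht_two (ihA h2) h1), ihA h2, ihY hY]

theorem fb_node {A : BinaryTree Unit} (h : A ≠ .nil) (Y : BinaryTree Unit) : fb (A △ Y) = false := by
  change isNil A = false
  exact isNil_f.2 h

theorem Wn.of {q : ℕ} {B1 H s B : BinaryTree Unit} (h : NodeG k q B1 H s B)
    (h1 : 1 ∈ OddHC.cont (gR B1 H s B)) : Wn (gR B1 H s B) B (Tsq.sq (gR B1 H s B)).1 := by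
  have hH2 := bl_ht h.light
  have hs3 := hv_ht h.hs h.s0
  have l1 : Tsq.ht B1 < Tsq.ht s + 1 := by rw [H1.ht_eq, H1.ht_eq]; exact h.low
  have l2 : Tsq.ht B ≤ Tsq.ht s + 1 := by rw [H1.ht_eq, H1.ht_eq]; exact h.top
  obtain ⟨X, Y, g, g1, g2, g3⟩ := sq_hv h.hs h.s0
  have e1 : Tsq.ht (app H s) = Tsq.ht s := by rw [Tsq.ht_app]; omega
  have e2 : Tsq.sq (app H s) = (app H X △ Y, (Tsq.sq s).2) := by
    rw [Tsq.sq_pre H s (by omega), g.e]
    rfl
  have e3 : Tsq.sq (app H s △ B) = ((app H X △ Y) △ (Tsq.sq s).2, B) := by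
    rw [Tsq.sq_ge (app_ne h.s0) (by omega), e2]
  have e4 : Tsq.sq (gR B1 H s B) = (app B1 (app H X △ Y) △ (Tsq.sq s).2, B) := by
    unfold gR
    rw [Tsq.sq_pre B1 _ (by rw [Tsq.ht_node]; omega), e3]
    rfl
  have hR0 : gR B1 H s B ≠ .nil := by unfold gR; exact app_ne (by simp)
  have cB : c1 B = 0 := c1_hv h.hB
  have cB1 : c1 B1 = 0 := c1_hv h.h1
  have cs : c1 s = 0 := c1_hv h.hs
  have hT := h.ht
  have hT3 := h.hs3
  have hc1 : 1 ≤ c1 (gR B1 H s B) := Multiset.count_pos.2 h1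
  -- the contents of the square
  have hct : ∀ {R : BinaryTree Unit}, R ≠ .nil → c1 (Tsq.sq R).2 + c1 (Tsq.sq R).1 = c1 R := by
    intro R hR
    let x : OddHC.X R.numNodes := ⟨R, mem_treesOfNumNodesEq.2 rfl⟩
    have a1 : (TT (TT x)).1 = app (Tsq.sq R).2 (Tsq.sq R).1 := Tsq.TT_sq x hR
    have a2 : OddHC.cont (TT (TT x)).1 = OddHC.cont R := by
      rw [TT_apply, cont_TF, TT_apply, cont_TF]
    rw [a1] at a2
    rw [← c1_app]
    unfold c1
    rw [a2]
  have cY : c1 (Tsq.sq s).2 = 0 := by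
    have := hct h.s0
    omega
  have cS : 1 ≤ c1 (Tsq.sq (gR B1 H s B)).1 := by
    have := hct hR0
    rw [h.sq.1] at this
    omega
  have hXne : app H X ≠ .nil := app_ne g.X0
  have hC0 : app B1 (app H X △ Y) ≠ .nil := app_ne (by simp)
  refine ⟨⟨hR0, ?_, ?_, hv_fb h.hB, hv_last h.hB, ?_, ?_, ?_⟩, ?_, ?_, ?_, cB, ?_⟩
  · -- fb R
    unfold gR
    by_cases hb1 : B1 = .nil
    · subst hb1
      exact fb_node (app_ne h.s0) _
    · rw [fb_app hb1]; exact hv_fb h.h1
  · -- lastB R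
    unfold gR
    rw [lastB_app (by simp)]
    exact lastB_node (app_ne h.s0) (hv_last h.hB)
  · rw [e4]; simp
  · rw [e4]; exact fb_node hC0 _
  · rw [e4]
    exact lastB_node hC0 g.l2
  · -- hb R
    unfold gR at hc1 ⊢
    rw [c1_app, cB1, c1_node] at hc1
    rw [hb_app, hb_node (app_ne h.s0), c1_node, c1_nil]
    omega
  · omega
  · have := (Tsq.ht_sq hR0).1
    rw [H1.ht_eq, H1.ht_eq] at this
    omega
  · rw [e4] at cS ⊢
    refine ⟨_, _, rfl, hC0, ?_, ?_, cY, ?_⟩
    · by_cases hb1 : B1 = .nil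
      · subst hb1
        exact fb_node hXne _
      · rw [fb_app hb1]; exact hv_fb h.h1
    · rw [lastB_app (by simp)]
      have := g.l0
      cases hY : Y with
      | nil => rw [lastB_one, isNil_f]; exact hXne
      | node _ D E =>
        rw [hY] at this
        rw [lastB_cons (by simp)] at this ⊢
        exact this
    · rw [c1_node] at cS
      rw [c1_node, c1_nil]
      have := cY
      omega

/-! ### Words of the window -/

theorem Wn.cR (h : Wn R B S) : 1 ≤ c1 R := h.hR.trans (hb_le R)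

theorem Wn.hS (h : Wn R B S) : 1 ≤ hb S := by
  obtain ⟨C, D, rfl, h0, _, _, _, h1⟩ := h.shS
  rw [hb_node h0]
  omega

theorem Wn.cS (h : Wn R B S) : 1 ≤ c1 S := h.hS.trans (hb_le S)

theorem ch_ne (q : ℕ) : ch (q + 1) ≠ .nil := by simp [ch]

theorem one_Q (q : ℕ) (Y : BinaryTree Unit) : c1 (app (ch (q + 1)) (.nil △ Y)) = c1 (ch (q + 1)) + (1 + c1 Y) := by
  rw [c1_app, c1_leaf]

theorem Wn.noE (h : Wn R B S) {i : ℕ} (hi : i < 20) (hX : c1 X = 0 ∨ (c1 X ≤ 1 ∧ 2 ≤ len X))
    (e : W R (ch (q + 1)) B S i = X △ .nil ∨ W R (ch (q + 1)) B S i = app X (.nil △ .nil) ∨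
      W R (ch (q + 1)) B S i = .nil △ X) : False := by
  have r1 := h.cR
  have r2 := h.cS
  have r3 := h.hR2
  have r4 := h.hS2
  have r5 := h.cB
  have n0 := c1_nil
  rcases ae_shape h.wd hi e with ⟨rfl, _⟩ | ⟨_, rfl, _⟩ | ⟨_, hE⟩
  · rw [c1_app, c1_leaf] at hX
    omega
  · rw [c1_app, c1_leaf] at hX
    omega
  · rcases hE with ⟨_, rfl⟩ | ⟨_, rfl⟩ | ⟨_, rfl⟩ | ⟨_, rfl⟩ | ⟨_, rfl⟩ | ⟨_, rfl⟩ | ⟨_, rfl⟩ | ⟨_, rfl⟩
    · rw [c1_leaf, c1_app, c1_leaf] at hX
      omega
    · rw [c1_big (by rw [ht_node]; omega), c1_leaf] at hX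
      omega
    · rw [c1_leaf, c1_big r3] at hX
      omega
    · rw [c1_big (by rw [ht_node]; omega), c1_big r3] at hX
      have : len ((R △ .nil) △ .nil) = 1 := rfl
      omega
    · rw [c1_big r4, c1_app, c1_leaf] at hX
      omega
    · rw [c1_big (by rw [ht_node]; omega), c1_big r4] at hX
      have : len ((S △ B) △ .nil) = 1 := rfl
      omega
    · rw [c1_leaf, c1_app] at hX
      omega
    · rw [c1_big (by rw [ht_app]; omega), c1_app] at hX
      have : len (app S (B △ .nil) △ .nil) = 1 := rfl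
      omega

theorem one_ge (hA : 2 ≤ c1 A) (Y : BinaryTree Unit) : 1 + c1 Y ≤ c1 (A △ Y) := by
  have := c1_ge A Y
  omega

/-- all words have a bead in a component that is not `()` -/
theorem Wn.hbW (h : Wn R B S) {i : ℕ} (hi : i < 20) : 1 ≤ hb (W R (ch (q + 1)) B S i) := by
  have r1 := h.cR
  have r2 := h.cS
  have r3 := h.hR2
  have r4 := h.hS2
  have r6 := h.hR
  have r7 := h.hS
  have R0 := h.wd.R0
  have S0 := h.wd.S0
  interval_cases i
  · rw [W, hb_app]; omega
  · rw [W, hb_app]; omega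
  · rw [W, hb_leaf, hb_app]; omega
  · rw [W, hb_node (app_ne (by simp)), c1_big (by rw [ht_app]; omega), c1_app]; omega
  · rw [W, hb_node (app_ne (by simp))]
    omega
  · rw [W, hb_node (ch_ne q), hb_leaf]
    omega
  · rw [W, hb_node R0, c1_big r3]; omega
  · rw [W, hb_app, hb_node (by simp), c1_big (by rw [ht_node]; omega), c1_leaf]; omega
  · rw [W, hb_app, hb_leaf, hb_node R0, c1_big r3]; omega
  · rw [W, hb_node (by simp), c1_big (by rw [ht_node]; omega), c1_big r3]; omega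
  · rw [W, hb_app, hb_node (by simp)]
    omega
  · rw [W, hb_app, hb_leaf, hb_app, hb_leaf]
    omega
  · rw [W, hb_node S0, c1_big r4]
    omega
  · rw [W, hb_app]
    omega
  · rw [W, hb_node (app_ne (by simp)), c1_big (by rw [ht_app, ht_node]; omega), c1_app, c1_leaf]
    omega
  · rw [W, hb_node (ch_ne q), hb_node S0, c1_big r4]
    omega
  · rw [W, hb_app]
    omega
  · rw [W, hb_app, hb_node (by simp), c1_big (by rw [ht_node]; omega), c1_big r4]
    omega
  · rw [W, hb_app, hb_leaf, hb_app]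
    omega
  · have e : W R (ch (q + 1)) B S 19 = app S (B △ .nil) △ ch (q + 1) := rfl
    rw [e, hb_node (app_ne (by simp)), c1_big (by rw [ht_app]; omega), c1_app]
    omega

/-- the content of `(Q())` -/
theorem one_QQ (q : ℕ) (Y : BinaryTree Unit) : 1 + c1 Y ≤ c1 (app (ch (q + 1)) (.nil △ .nil) △ Y) := by
  cases q with
  | zero =>
    have e : app (ch (0 + 1)) (.nil △ .nil) = .nil △ (.nil △ .nil) := rfl
    have := c1_ge (.nil △ (.nil △ .nil)) Y
    rw [c1_leaf, c1_leaf, c1_nil] at this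
    rw [e]
    omega
  | succ q =>
    have h2 : 2 ≤ OddHC.ht (app (ch (q + 1 + 1)) (.nil △ .nil)) := by
      rw [ht_app]
      change 2 ≤ max (OddHC.ht (ch (q + 1) △ .nil)) _
      have := ht_pos' (ch_ne q)
      rw [ht_node]
      omega
    rw [c1_big h2, c1_app, c1_leaf]
    omega

/-- the words with one part 1 -/
theorem Wn.c1W (h : Wn R B S) {i : ℕ} (hi : i < 20) (hc : c1 (W R (ch (q + 1)) B S i) ≤ 1) :
    i = 0 ∨ i = 6 ∨ i = 9 ∨ i = 10 ∨ i = 15 ∨ i = 16 ∨ i = 17 ∨ i = 19 := by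
  have r1 := h.cR
  have r2 := h.cS
  have r3 := h.hR2
  have r4 := h.hS2
  have r5 := h.cB
  interval_cases i
  · omega
  · rw [W, c1_app, c1_leaf] at hc; omega
  · rw [W, c1_leaf, c1_app] at hc; omega
  · rw [W, c1_big (by rw [ht_app]; omega), c1_app, c1_leaf] at hc; omega
  · rw [W] at hc
    have := one_QQ q R
    omega
  · rw [W, c1_node, c1_leaf] at hc; omega
  · omega
  · rw [W, c1_app, c1_big (by rw [ht_node]; omega), c1_leaf] at hc; omega
  · rw [W, c1_app, c1_leaf, c1_big r3] at hc; omega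
  · omega
  · omega
  · rw [W, c1_app, c1_leaf, c1_app, c1_leaf] at hc; omega
  · rw [W, c1_big r4, c1_app, c1_leaf] at hc; omega
  · rw [W, c1_app] at hc
    by_cases hB : B = .nil
    · subst hB
      have e : app .nil (.nil △ ch (q + 1)) = .nil △ ch (q + 1) := rfl
      rw [e] at hc
      cases q with
      | zero =>
        have := c1_ge (.nil △ ch (0 + 1)) .nil
        have e2 : c1 (.nil △ ch (0 + 1)) = 2 := by
          rw [c1_leaf]
          change 1 + c1 (.nil △ .nil) = 2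
          rw [c1_leaf, c1_nil]
        rw [e2] at this
        omega
      | succ q =>
        have h2 : 2 ≤ OddHC.ht (.nil △ ch (q + 1 + 1)) := by
          rw [ht_node]
          change 2 ≤ max _ (OddHC.ht (ch (q + 1) △ .nil))
          have := ht_pos' (ch_ne q)
          rw [ht_node]
          omega
        rw [c1_big h2, c1_leaf] at hc
        omega
    · have := ht_two r5 hB
      rw [c1_big (by rw [ht_app]; omega), c1_app, c1_leaf] at hc
      omega
  · rw [W, c1_big (by rw [ht_app, ht_node]; omega), c1_app, c1_leaf] at hc; omega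
  · omega
  · omega
  · omega
  · rw [W, c1_app, c1_leaf, c1_app] at hc; omega
  · omega

theorem c1_lastI (h : D ≠ .nil) : c1 (lastI D △ .nil) ≤ c1 D := by
  induction D with
  | nil => exact absurd rfl h
  | node u A Y _ ih =>
    cases Y with
    | nil => exact le_rfl
    | node v E F =>
      have := ih (by simp)
      change c1 (lastI (E △ F) △ .nil) ≤ c1 (A △ (E △ F))
      rw [c1_node A]
      exact this.trans (Nat.le_add_left _ _)

theorem len_ch (q : ℕ) : len (ch q) ≤ 1 := by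
  cases q with
  | zero => exact Nat.zero_le _
  | succ q => exact le_rfl

theorem lastI_ch (q : ℕ) : lastI (ch (q + 1)) = ch q := rfl

/-- last component `(Z)` with `Z = E ()`, `E` not empty -/
theorem Wn.no_last (h : Wn R B S) {i : ℕ} (hi : i < 20) (hc : c1 (W R (ch (q + 1)) B S i) ≤ 1)
    (h1 : 2 ≤ len (lastI (W R (ch (q + 1)) B S i))) (h2 : lastB (lastI (W R (ch (q + 1)) B S i)) = true)
    (h3 : 1 ≤ c1 (lastI (W R (ch (q + 1)) B S i) △ .nil)) : False := by
  have lq := len_ch q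
  rcases h.c1W hi hc with rfl | rfl | rfl | rfl | rfl | rfl | rfl | rfl
  · rw [W, lastI_app (by simp), lastI_one] at h1
    have : len (ch (q + 1) △ .nil) = 1 := rfl
    omega
  · rw [W, lastI_cons (by simp), lastI_one] at h1
    have : len (ch (q + 1)) = 1 := rfl
    omega
  · rw [W, lastI_cons (ch_ne q), lastI_ch] at h1
    omega
  · obtain ⟨C, D, hS, h0, _, h5, h6, h7⟩ := h.shS
    rw [W, lastI_app (by simp), lastI_cons h.wd.S0, hS] at h2 h3
    by_cases hD : D = .nil
    · subst hD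
      rw [lastI_one, h5] at h2
      exact absurd h2 (by simp)
    · rw [lastI_cons hD] at h3
      have := c1_lastI hD
      omega
  · rw [W, lastI_cons (by simp)] at h2 h3
    by_cases hB : B = .nil
    · subst hB
      rw [lastI_one, h.wd.lS] at h2
      exact absurd h2 (by simp)
    · rw [lastI_cons hB] at h3
      have := c1_lastI hB
      have := h.cB
      omega
  · rw [W, lastI_app (by simp), lastI_cons (by simp), lastI_one] at h1
    have : len (ch (q + 1)) = 1 := rfl
    omega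
  · rw [W, lastI_app (by simp), lastI_one, lastB_node h.wd.S0 h.wd.lB] at h2
    exact absurd h2 (by simp)
  · have e : W R (ch (q + 1)) B S 19 = app S (B △ .nil) △ ch (q + 1) := rfl
    rw [e, lastI_cons (ch_ne q), lastI_ch] at h1
    omega

/-- first component `(()T)` -/
theorem Wn.first (h : Wn R B S) {i : ℕ} (hi : i < 20) (hc : c1 (W R (ch (q + 1)) B S i) ≤ 1)
    {T E : BinaryTree Unit} (hT : T ≠ .nil) (hT2 : 2 ≤ OddHC.ht T)
    (e : W R (ch (q + 1)) B S i = (.nil △ T) △ E) : i = 0 := by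
  have hc0 : ∀ Y : BinaryTree Unit, c1 ((.nil △ T) △ Y) ≠ 0 := by
    intro Y
    rw [c1_big (by rw [ht_node]; omega), c1_leaf]
    omega
  rcases h.c1W hi hc with rfl | rfl | rfl | rfl | rfl | rfl | rfl | rfl
  · rfl
  · have := (node_inj e).1
    have h1 := h.wd.fR
    rw [this] at h1
    exact absurd h1 (by simp [fb, isNil])
  · exact absurd (node_inj (node_inj e).1).1 h.wd.R0
  · cases hB : B with
    | nil =>
      rw [hB] at e
      exact absurd (node_inj (node_inj e).1).1 (ch_ne q)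
    | node u C D =>
      rw [hB] at e
      have e1 := (node_inj e).1
      have h1 := h.cB
      rw [hB, e1] at h1
      exact absurd h1 (hc0 D)
  · exact absurd (node_inj (node_inj e).1).2.symm hT
  · obtain ⟨C, D, hS, h0, h4, _⟩ := h.shS
    rw [hS] at e
    have e1 := (node_inj e).1
    rw [e1] at h4
    exact absurd h4 (by simp [fb, isNil])
  · have e1 : ch q = .nil △ T := (node_inj e).1
    cases q with
    | zero => exact absurd e1 (by simp [ch])
    | succ q => exact absurd (node_inj e1).2.symm hT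
  · obtain ⟨C, D, hS, h0, h4, _⟩ := h.shS
    rw [hS] at e
    exact absurd (node_inj (node_inj e).1).1 h0

/-- **the words of the window against J3V** -/
theorem Wn.j3v (h : Wn R B S) {V E T : BinaryTree Unit} (h' : J3.SqD k V E T) {i j : ℕ} (hi : i < 20) (hj : j < 20)
    (h9 : j ≠ 9) (e : W R (ch (q + 1)) B S i = W V .nil E T j) : i = 0 ∧ j = 14 := by
  have hV : c1 V = 0 := h'.one
  have hE : c1 E = 0 := h'.oneB
  have hT : c1 T = 0 := h'.oneS
  have hV0 := h'.ne
  have hT0 := h'.neS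
  have hV2 := ht_two hV hV0
  have hT2 := ht_two hT hT0
  have lV := len_pos hV0
  have lT := len_pos hT0
  have w1 : 1 ≤ c1 (W R (ch (q + 1)) B S i) := (h.hbW hi).trans (hb_le _)
  have w2 := h.hbW (q := q) hi
  have b2 : OddHC.ht (.nil △ .nil : BinaryTree Unit) = 1 := by rw [ht_node]; rfl
  have cc : c1 ((.nil △ .nil : BinaryTree Unit) △ .nil) = 0 := by
    rw [c1_node, cont_node, cont_nil, raise_zero, c1_nil]; rfl
  have cc' : ∀ Y : BinaryTree Unit, c1 ((.nil △ .nil : BinaryTree Unit) △ Y) = c1 Y := by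
    intro Y
    rw [c1_node, cont_node, cont_nil, raise_zero]
    change 0 + _ = _
    rw [zero_add]
  have x1 : c1 (app V (.nil △ .nil)) = 1 := by rw [c1_app, c1_leaf, c1_nil]; omega
  have x2 : 2 ≤ len (app V (.nil △ .nil)) := by
    rw [len_app]
    change 2 ≤ len V + 1
    omega
  have x3 : c1 (.nil △ V) = 1 := by rw [c1_leaf]; omega
  have x4 : 2 ≤ len (.nil △ V) := by
    change 2 ≤ len V + 1
    omega
  have x5 : c1 (V △ .nil) = 0 := by rw [c1_big hV2, c1_nil]; omega
  have x6 : c1 (T △ E) = 0 := by rw [c1_big hT2]; omega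
  have x7 : c1 (app T (E △ .nil)) = 0 ∨ (c1 (app T (E △ .nil)) ≤ 1 ∧ 2 ≤ len (app T (E △ .nil))) := by
    by_cases hE0 : E = .nil
    · subst hE0
      right
      rw [c1_app, c1_leaf, c1_nil, len_app]
      refine ⟨by omega, ?_⟩
      change 2 ≤ len T + 1
      omega
    · left
      rw [c1_app, c1_big (ht_two hE hE0), c1_nil]
      omega
  interval_cases j
  · -- 0
    rw [e, W, c1_app, cc] at w1
    omega
  · exact absurd (h.noE (X := app V (.nil △ .nil)) hi (Or.inr ⟨x1.le, x2⟩)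
      (Or.inr (Or.inl (by rw [e, app_assoc]; rfl)))) id
  · exact absurd (h.noE (X := app V (.nil △ .nil)) hi (Or.inr ⟨x1.le, x2⟩) (Or.inr (Or.inr e))) id
  · exact absurd (h.noE (X := app V (.nil △ .nil)) hi (Or.inr ⟨x1.le, x2⟩) (Or.inl e)) id
  · -- 4
    have e' : W V .nil E T 4 = (.nil △ .nil) △ V := rfl
    rw [e, e', cc'] at w1
    omega
  · exact absurd (h.noE (X := .nil △ V) hi (Or.inr ⟨x3.le, x4⟩) (Or.inr (Or.inr e))) id
  · exact absurd (h.noE (X := V △ .nil) hi (Or.inl x5) (Or.inr (Or.inl e))) id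
  · exact absurd (h.noE (X := .nil △ V) hi (Or.inr ⟨x3.le, x4⟩) (Or.inl e)) id
  · exact absurd (h.noE (X := V △ .nil) hi (Or.inl x5) (Or.inr (Or.inr e))) id
  · exact absurd rfl h9
  · -- 10
    rw [e, W, c1_app, cc'] at w1
    omega
  · -- 11
    have q1 : hb (W V .nil E T 11) = 0 := by
      have e' : W V .nil E T 11 = app E (.nil △ (.nil △ T)) := rfl
      have l1 := hb_le E
      have l2 := hb_le T
      rw [e', hb_app, hb_leaf, hb_leaf]
      omega
    rw [e] at w2
    omega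
  · exact absurd (h.noE (X := T △ E) hi (Or.inl x6) (Or.inr (Or.inl e))) id
  · -- 13
    exfalso
    have e' : W V .nil E T 13 = app T (app E (.nil △ .nil) △ .nil) := rfl
    rw [e'] at e
    by_cases hE0 : E = .nil
    · subst hE0
      rw [e, c1_app] at w1
      change 1 ≤ c1 T + c1 ((.nil △ .nil : BinaryTree Unit) △ .nil) at w1
      rw [cc] at w1
      omega
    · have hE2 := ht_two hE hE0
      have lE := len_pos hE0
      have y1 : lastI (W R (ch (q + 1)) B S i) = app E (.nil △ .nil) := by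
        rw [e, lastI_app (by simp), lastI_one]
      have y2 : c1 (app E (.nil △ .nil) △ .nil) = 1 := by
        rw [c1_big (by rw [ht_app]; omega), c1_app, c1_leaf, c1_nil]
        omega
      refine h.no_last (q := q) hi ?_ ?_ ?_ ?_
      · rw [e, c1_app, y2]; omega
      · rw [y1, len_app]
        change 2 ≤ len E + 1
        omega
      · rw [y1, lastB_app (by simp)]; rfl
      · rw [y1, y2]
  · -- 14
    have e' : W V .nil E T 14 = (.nil △ T) △ E := rfl
    rw [e'] at e
    have y : c1 ((.nil △ T) △ E) = 1 := by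
      rw [c1_big (by rw [ht_node]; omega), c1_leaf]; omega
    exact ⟨h.first hi (by rw [e, y]) hT0 hT2 e, rfl⟩
  · exact absurd (h.noE (X := T △ E) hi (Or.inl x6) (Or.inr (Or.inr e))) id
  · exact absurd (h.noE (X := app T (E △ .nil)) hi x7
      (Or.inr (Or.inl (by rw [e, app_assoc]; rfl)))) id
  · -- 17
    have e' : W V .nil E T 17 = (T △ E) △ .nil := rfl
    rw [e, e', c1_big (by rw [ht_node]; omega), c1_nil] at w1
    omega
  · exact absurd (h.noE (X := app T (E △ .nil)) hi x7 (Or.inr (Or.inr e))) id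
  · exact absurd (h.noE (X := app T (E △ .nil)) hi x7 (Or.inl e)) id

/-- **the words of a window of type A with a bead against J3V**: the only common word is `R [q + 3] = (()S) B`, exactly if
`B1 = nil`, `H s = ()S'` and `B' = B [q + 3]` -/
theorem _root_.Pool.OddHC.H1.NodeG.j3v {q : ℕ} {B1 H s B : BinaryTree Unit} (h : NodeG k q B1 H s B)
    (h1 : 1 ∈ OddHC.cont (gR B1 H s B)) {V E T : BinaryTree Unit} {k' : ℕ} (h' : J3.SqD k' V E T) {i j : ℕ} (hi : i < 20)
    (hj : j < 20) (h9 : j ≠ 9)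
    (e : W (gR B1 H s B) (ch (q + 1)) B (Tsq.sq (gR B1 H s B)).1 i = W V .nil E T j) :
    i = 0 ∧ j = 14 ∧ B1 = .nil ∧ app H s = .nil △ T ∧ E = app B (ch (q + 3)) := by
  obtain ⟨rfl, rfl⟩ := (Wn.of h h1).j3v h' hi hj h9 e
  have e' : app (gR B1 H s B) (ch (q + 3)) = (.nil △ T) △ E := e
  have hT2 : 2 ≤ OddHC.ht T := ht_two h'.oneS h'.neS
  have cB1 : c1 B1 = 0 := c1_hv h.h1
  cases hB : B1 with
  | nil =>
    subst hB
    have e2 : app H s △ app B (ch (q + 3)) = (.nil △ T) △ E := e'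
    obtain ⟨e3, e4⟩ := node_inj e2
    exact ⟨rfl, rfl, rfl, e3, e4.symm⟩
  | node u C D =>
    exfalso
    subst hB
    have e2 : C △ app (app D (app H s △ B)) (ch (q + 3)) = (.nil △ T) △ E := e'
    obtain ⟨rfl, -⟩ := node_inj e2
    change c1 ((.nil △ T) △ D) = 0 at cB1
    rw [c1_big (by rw [ht_node]; omega), c1_leaf] at cB1
    omega

/-- **W-A-J3V** (window with a bead, `1 ∈ contc c`): no common word, unless the class of the window is that of
`(()S') B [q + 3]`, i.e. `B1 = nil`, `H s = ()S'`, and `S'`, `B [q + 3]` are the pieces `S`, `B` of J3V; then it has exactly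
one bead -/
theorem _root_.Pool.OddHC.TyA.w_J3V {F F' : Set (Cyc k)} {g g' : DG k} (h : TyA F g) (h' : TyJ3V F' g')
    (hb : ∀ c ∈ F, 1 ∈ contc c) {w : OddHC.X k} (hw : w ∈ g.B) (hw' : w ∈ g'.B) :
    ∃ (q : ℕ) (V B S : BinaryTree Unit), J3.SqD k V (app B (ch (q + 3))) S ∧
      (∀ x ∈ OddHC.cont B, q + 3 ≤ x) ∧ w.1 = (.nil △ S) △ app B (ch (q + 3)) ∧
      (∀ w' ∈ g'.B, ∃ i < 20, i ≠ 9 ∧ w'.1 = H1.W V .nil (app B (ch (q + 3))) S i) ∧ cyc w ∈ F ∧
      (contc (cyc w)).count 1 = 1 := by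
  obtain ⟨V, E, T, h1, h2⟩ := h'.words
  obtain ⟨q, B1, H, s, B, w0, hn, rfl, rfl⟩ := h
  obtain ⟨i, hi, rfl⟩ := mem_gad20.1 hw
  obtain ⟨j, hj, h9, e⟩ := h2 _ hw'
  have hbig := hn.big
  have hR1 : 1 ∈ OddHC.cont (gR B1 H s B) := by
    have h1 := hb _ rfl
    change 1 ∈ OddHC.cont (gX q B1 H s B w0 0).1 at h1
    rw [hn.cont0] at h1
    rcases Multiset.mem_add.1 h1 with h3 | h3
    · exact h3
    · have := Multiset.mem_singleton.1 h3
      omega
  rw [hn.word w0 hi] at e
  obtain ⟨rfl, rfl, rfl, e1, rfl⟩ := hn.j3v hR1 h1 hi hj h9 e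
  have hT2 : 2 ≤ OddHC.ht T := ht_two h1.oneS h1.neS
  have e2 : (gX q .nil H s B w0 0).1 = (.nil △ T) △ app B (ch (q + 3)) := by
    rw [hn.word w0 hi, e]
    rfl
  refine ⟨q, V, B, T, h1, hn.bare, e2, h2, rfl, ?_⟩
  change c1 (gX q .nil H s B w0 0).1 = 1
  have a1 : c1 T = 0 := h1.oneS
  have a2 : c1 (app B (ch (q + 3))) = 0 := h1.oneB
  rw [e2, c1_big (by rw [ht_node]; omega), c1_leaf, a1, a2]

/-- no common word, if no piece `B` of J3V ends with `[c]`, `c` at most its other parts -/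
theorem _root_.Pool.OddHC.TyA.w_J3V' {F F' : Set (Cyc k)} {g g' : DG k} (h : TyA F g) (h' : TyJ3V F' g')
    (hb : ∀ c ∈ F, 1 ∈ contc c)
    (hB : ∀ (V E S : BinaryTree Unit), J3.SqD k V E S →
      (∀ w ∈ g'.B, ∃ i < 20, i ≠ 9 ∧ w.1 = H1.W V .nil E S i) → ∀ (q : ℕ) (B : BinaryTree Unit),
      (∀ x ∈ OddHC.cont B, q + 3 ≤ x) → E ≠ app B (ch (q + 3))) :
    ∀ w ∈ g.B, w ∉ g'.B := by
  intro w hw hw'
  obtain ⟨q, V, B, S, h1, h2, _, h4, _⟩ := h.w_J3V h' hb hw hw'
  exact hB V _ S h1 h4 q B h2 rfl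

/-- two beads: no common word -/
theorem _root_.Pool.OddHC.TyA.w_J3V2 {F F' : Set (Cyc k)} {g g' : DG k} (h : TyA F g) (h' : TyJ3V F' g')
    (hb : ∀ c ∈ F, 2 ≤ (contc c).count 1) : ∀ w ∈ g.B, w ∉ g'.B := by
  intro w hw hw'
  obtain ⟨q, V, B, S, h1, h2, _, h4, h5, h6⟩ := h.w_J3V h' (fun c hc => Multiset.count_pos.1 (by
    have := hb c hc
    omega)) hw hw'
  have := hb _ h5
  omega

end AJ3V

end Pool.OddHC
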