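import Pool.Agent.Work.MP_8f87b2_h29.DnJ

/-!
MP_8f87b2_co (helper21): the DOWN links (`c = 2`, `DnU U`) against the 20 words `W R nil B S i` of J2B
(`F' = {cyc R(()), cyc (())R}`): the only common words are `R(()) = (U)[2]`, `R = (U)`, and for `B` empty `S(()) = (U)[2]`,
`S = (U)`.
-/

set_option autoImplicit false
set_option linter.all false

namespace Pool.OddHC

open Finset Equiv BinaryTree Pool.Agent.Work.MP_8f87b2_co

variable {k : ℕ} {F F' : Set (Cyc k)} {g g' : DG k} {U R B S : BinaryTree Unit}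

namespace J3

/-- common words of a DOWN triple `(U)[2]; U[3], [2]()U` and the 20 words of J2B -/
theorem SqD.dn2 (h : SqD k R B S) {w0 : X k} (hU : DnU U) (ht : TyC 2 U F g)
    (hd : ∀ d ∈ F, d ≠ cyc (sX R B S w0 0)) {w : X k} (hw : w ∈ g.B)
    {i : ℕ} (hi : i < 20) (e : w.1 = H1.W R .nil B S i) :
    (i = 0 ∧ R = U △ .nil) ∨ (i = 13 ∧ B = .nil ∧ S = U △ .nil) := by
  by_cases h9 : i = 9
  · subst h9
    exact (tri9 ht hU.ne (Or.inr (ch_ne (by omega))) hw e).elim
  have hR := h.ne
  have hS := h.neS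
  have hUn := hU.ne
  have lU : 2 ≤ H1.len U := by
    by_contra hlt
    have l1 := H1.len_pos hUn
    have l2 : H1.len U = 1 := by omega
    cases U with
    | nil => exact hUn rfl
    | node _ A X =>
      by_cases hX : X = .nil
      · subst hX
        exact hU.two A rfl
      · have := H1.len_pos hX
        change H1.len (A △ X) = 1 at l2
        rw [len_node] at l2
        omega
  have lR := H1.len_pos hR
  have lS := H1.len_pos hS
  have hla : OddHC.ht (.nil △ .nil : BinaryTree Unit) = 1 := rfl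
  have lfn : (.nil △ .nil : BinaryTree Unit) ≠ .nil := by simp
  have c2n : (((.nil : BinaryTree Unit) △ .nil) △ .nil) ≠ .nil := by simp
  have nlf : U ≠ .nil △ .nil := by
    rintro rfl
    have := hU.h3
    rw [hla] at this
    omega
  have ngd : ¬ H1.gd (.nil △ .nil : BinaryTree Unit) := fun h => (not_gd_nil_node h).2
  have nfb : ∀ X : BinaryTree Unit, U ≠ .nil △ X := fun X e0 => H1.gd_ne (hU.hd_of e0) rfl
  have nfb2 : ∀ Z X : BinaryTree Unit, U ≠ (.nil △ Z) △ X := fun Z X e0 => (not_gd_nil_node (hU.hd_of e0)).2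
  rcases ht.words w hw with e1 | ⟨hF, e1 | e1⟩
  · -- host `(U)[2]`
    have e2 : H1.W R .nil B S i = app (U △ .nil) ((.nil △ .nil) △ .nil) := e.symm.trans e1
    rcases h.lstA hi h9 lfn e2 with ⟨q, _, e3⟩ | ⟨_, R', _, e4⟩ | ⟨_, R', _, e4⟩ | ⟨_, e3, _⟩ |
      ⟨_, S', e3, e4⟩ | ⟨_, S', e3, e4⟩ |
      ⟨q, e3, e5⟩ | ⟨_, _, _, e4⟩ | ⟨_, B', e3, e4⟩ | ⟨_, _, _, e4⟩ | ⟨_, B', e3, e4⟩ | ⟨_, e3, _⟩ |
      ⟨_, _, e4⟩ | ⟨_, _, e4⟩ | ⟨_, _, e4⟩ | ⟨_, _, e4⟩
    · exact Or.inl ⟨q, e3.symm⟩
    · exact absurd (H1.node_inj e4).1 nlf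
    · exact absurd (H1.node_inj e4).1 hUn
    · exact absurd e3.symm (ne_nil_node h.one)
    · by_cases hB : B = .nil
      · subst hB
        exact absurd (H1.node_inj e4).1 nlf
      · have l := congrArg H1.len e4
        have := H1.len_pos hB
        rw [H1.len_app, len_node, len_node, len_nil] at l
        omega
    · by_cases hB : B = .nil
      · subst hB
        exact absurd (H1.node_inj e4).1 hUn
      · have l := congrArg H1.len e4
        have := H1.len_pos hB
        rw [H1.len_app, len_node, len_node, len_nil] at l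
        omega
    · right
      by_cases hB : B = .nil
      · exact ⟨q, hB, e5.symm⟩
      · have l := congrArg H1.len e3
        have := H1.len_pos hB
        rw [H1.len_app, len_node, len_nil] at l
        omega
    · exact absurd e4 (by simp)
    · exact absurd (H1.node_inj e4).1 (nfb S)
    · exact absurd (H1.node_inj e4).1 hUn
    · exact absurd (H1.node_inj e4).1 hUn
    · exact absurd e3.symm (ne_nil_node h.oneB)
    · exact absurd e4 (by simp)
    · exact absurd e4 (by simp)
    · exact absurd e4 (by simp)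
    · exact absurd e4 (by simp)
  · -- new `U[3]`
    have e2 : H1.W R .nil B S i = app U (((.nil △ .nil) △ .nil) △ .nil) := e.symm.trans e1
    have cw : cyc (sX R B S w0 0) ≠ cyc w := fun h => hd _ hF h.symm
    have ew : w = sX R B S w0 i := Subtype.ext (by rw [e, h.word w0 hi])
    rcases h.lstA hi h9 c2n e2 with ⟨_, e3, _⟩ | ⟨_, R', _, e4⟩ | ⟨_, R', _, e4⟩ | ⟨_, _, e3⟩ |
      ⟨rfl, _⟩ | ⟨_, S', _, e4⟩ |
      ⟨_, e3, _⟩ | ⟨_, _, _, e4⟩ | ⟨_, B', _, e4⟩ | ⟨_, _, _, e3⟩ | ⟨_, B', _, e4⟩ | ⟨_, _, e4⟩ |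
      ⟨_, _, e4⟩ | ⟨_, _, e4⟩ | ⟨_, _, e4⟩ | ⟨_, _, e4⟩
    · exact absurd (H1.node_inj e3).1 (by simp)
    · exact absurd e4 (nfb2 .nil R')
    · exact absurd e4 (nfb _)
    · exact absurd e3 nlf
    · exact absurd (by rw [ew, cyc_eq.2 (h.same w0 (i := 0) (j := 10) (by simp))]) cw
    · have c1 := hU.c1
      rw [e4, cont_app, cont_node, cont_node, raise_nil, Multiset.count_add, Multiset.count_add,
        Multiset.count_add, Multiset.count_singleton_self] at c1
      omega
    · by_cases hB : B = .nil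
      · subst hB
        exact absurd (H1.node_inj e3).1 (by simp)
      · have l := congrArg H1.len e3
        have := H1.len_pos hB
        rw [H1.len_app, len_node, len_node, len_nil] at l
        omega
    · exact absurd e4 hUn
    · exact absurd e4 (nfb2 S B')
    · exact absurd e3 nlf
    · exact absurd e4 (nfb _)
    · exact absurd e4 (nfb _)
    · exact absurd e4 hUn
    · exact absurd e4 hUn
    · exact absurd e4 hUn
    · exact absurd e4 hUn
  · -- new `[2]()U`
    have e2 : H1.W R .nil B S i = (.nil △ .nil) △ (.nil △ U) := e.symm.trans e1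
    have cw : cyc (sX R B S w0 0) ≠ cyc w := fun h => hd _ hF h.symm
    have ew : w = sX R B S w0 i := Subtype.ext (by rw [e, h.word w0 hi])
    rcases h.fstA hi h9 lfn e2 with ⟨rfl, _⟩ | ⟨_, R', e3, e4⟩ | ⟨_, _, e3⟩ | ⟨_, _, e3⟩ | ⟨_, e3, _⟩ |
      ⟨_, _, e3⟩ | ⟨_, hB, _, e3⟩ | ⟨rfl, _⟩ | ⟨_, B', e3, e4⟩ | ⟨_, e3, e4⟩ | ⟨_, S', e3, e4⟩ | ⟨_, e3, _⟩ |
      ⟨_, S', e3, e4⟩ | ⟨_, _, e3⟩ | ⟨_, _, e3⟩
    · exact absurd (by rw [ew]) cw
    · by_cases hR' : R' = .nil
      · subst hR'
        have e5 : BinaryTree.nil △ U = .nil △ (.nil △ .nil) := e4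
        exact absurd (H1.node_inj e5).2 nlf
      · exact (cnt_second (A := .nil △ .nil) (by rw [← e3]; exact h.one) hR' e4.symm).elim
    · exact absurd e3 (by simp)
    · exact absurd e3.symm (ne_nil_node h.one)
    · exact absurd e3.symm (ne_nil_node h.one)
    · exact absurd e3 (by simp)
    · exact absurd e3.symm (ne_nil_node h.oneS)
    · exact absurd (by rw [ew, cyc_eq.2 (h.same w0 (i := 0) (j := 10) (by simp))]) cw
    · by_cases hB' : B' = .nil
      · subst hB'
        have e5 : BinaryTree.nil △ U = .nil △ (.nil △ S) := e4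
        exact absurd (H1.node_inj e5).2 (nfb _)
      · exact (cnt_second (A := .nil △ .nil) (by rw [← e3]; exact h.oneB) hB' e4.symm).elim
    · exact absurd e3.symm (ne_nil_node h.oneS)
    · by_cases hS' : S' = .nil
      · subst hS'
        have e5 : BinaryTree.nil △ U = (app B (.nil △ .nil)) △ .nil := e4
        exact absurd (H1.node_inj e5).2 hUn
      · exact (cnt_second (A := .nil △ .nil) (by rw [← e3]; exact h.oneS) hS' e4.symm).elim
    · exact absurd (H1.node_inj e3).2.symm hS
    · by_cases hS' : S' = .nil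
      · subst hS'
        have e5 : BinaryTree.nil △ U = B △ (.nil △ .nil) := e4
        exact absurd (H1.node_inj e5).2 nlf
      · exact (cnt_second (A := .nil △ .nil) (by rw [← e3]; exact h.oneS) hS' e4.symm).elim
    · exact absurd e3 (by simp)
    · exact absurd e3 (by simp)

end J3

end Pool.OddHC
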