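import Pool.Agent.Work.MP_8f87b2_h4.Links
import Pool.Agent.Work.MP_8f87b2_h14.P5S

/-!
MP_8f87b2_co (helper21): the groups P5, P5M over `P` (`PD P`) against the 20 words `W R nil B S i` of J2B: the exact list of common
words. `R = (P)`, or `B` empty and `S = (P)`, or (P5) the word 12 = `(S)B()`, `B = B'(())`, `P = (S)B'`, or (P5M) the word
18 = `()S(B)`, `S = (())S'`, `P = S'(B)`.
-/

set_option autoImplicit false
set_option linter.all false

namespace Pool.OddHC

open Finset Equiv BinaryTree Pool.Agent.Work.MP_8f87b2_co P5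

variable {k : ℕ} {F F' : Set (Cyc k)} {g g' : DG k} {P R B S : BinaryTree Unit}

namespace J3

theorem nb_lf (h : (OddHC.cont P).count 1 = 0) : P ≠ .nil △ .nil := ne_nil_node h

/-- `()()` inside a component: a part 1 -/
theorem one_oo (Y : BinaryTree Unit) : (OddHC.cont ((.nil △ (.nil △ .nil)) △ Y)).count 1 ≠ 0 := by
  have e : OddHC.cont ((.nil △ (.nil △ .nil)) △ Y) = raise ({1} + {1}) + OddHC.cont Y := by
    rw [cont_node, cont_node, cont_node, raise_nil, cont_nil, add_zero]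
  rw [e, Multiset.count_add]
  have : (raise ({1} + {1})).count 1 = 1 := by decide
  omega

theorem cnt_tail {A : BinaryTree Unit} (h : (OddHC.cont (app P (A △ .nil))).count 1 = 0) :
    (OddHC.cont (A △ .nil)).count 1 = 0 := (cnt_app h).2

/-- the words of P5 against the words of J2B -/
theorem SqD.p5w (h : SqD k R B S) (hP : PD P) {i j : ℕ} (hi : i < 20) (hj : j < 5)
    (e : H1.W R .nil B S i = wR P j) :
    R = P △ .nil ∨ (B = .nil ∧ S = P △ .nil) ∨
    (j = 2 ∧ i = 12 ∧ ∃ B', B = app B' ((.nil △ .nil) △ .nil) ∧ P = S △ B') := by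
  have hR := h.ne
  have hS := h.neS
  have P0 := hP.ne
  have hla : OddHC.ht (.nil △ .nil : BinaryTree Unit) = 1 := rfl
  have lP := H1.len_pos P0
  have lR := H1.len_pos hR
  have lS := H1.len_pos hS
  have oo0 : (.nil △ (.nil △ .nil) : BinaryTree Unit) ≠ .nil := by simp
  have fP : ∀ X : BinaryTree Unit, P ≠ .nil △ X := by
    rintro X rfl
    exact absurd hP.fb (by simp [H1.fb, H1.isNil])
  have one' : ∀ {C : BinaryTree Unit}, C ≠ .nil → (OddHC.cont C).count 1 = 0 → ∀ {X Y : BinaryTree Unit},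
      app C X ≠ .nil △ Y := by
    intro C hC hc X Y e1
    obtain ⟨C', e2, _⟩ := fst_app hC e1
    exact ne_nil_node hc e2
  by_cases h9 : i = 9
  · subst h9
    have e9 : H1.W R .nil B S 9 = (R △ .nil) △ .nil := rfl
    rw [e9] at e
    exfalso
    interval_cases j
    · exact hR (H1.node_inj (H1.node_inj e).1).1
    · exact absurd (H1.node_inj e).1 (by simp)
    · have l := congrArg H1.len e
      rw [wR, H1.len_app, len_node, len_nil] at l
      have : H1.len (o △ o) = 2 := rfl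
      omega
    · exact P0 (H1.node_inj e).2.symm
    · exact absurd (H1.node_inj e).1 (by simp)
  interval_cases j
  · -- `(()(P))`
    have e1 : H1.W R .nil B S i = (.nil △ (P △ .nil)) △ .nil := e
    rcases h.one1 hi h9 e1 with ⟨_, e2⟩ | ⟨_, e2⟩ | ⟨_, e2⟩ | ⟨_, e2⟩ | ⟨_, hB, e2⟩
    · exact absurd e2.symm (one' hR h.one)
    · exact Or.inl (H1.node_inj e2).2.symm
    · exact absurd (H1.node_inj e2).1.symm hS
    · exact absurd e2.symm (one' hS h.oneS)
    · exact Or.inr (Or.inl ⟨hB, (H1.node_inj e2).2.symm⟩)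
  · -- `()(P)()`
    have e1 : H1.W R .nil B S i = .nil △ (P △ o) := e
    rcases h.fst hi h9 e1 with ⟨_, e2⟩ | ⟨_, e2⟩ | ⟨_, e2⟩ | ⟨_, e2⟩ | ⟨_, e2⟩ | ⟨_, _, e2⟩
    · have e3 : app (P △ .nil) (.nil △ .nil) = app R (.nil △ .nil) := e2
      exact Or.inl (H1.app_snoc e3).1.symm
    · exact absurd (H1.node_inj e2).1 P0
    · exact absurd (H1.node_inj e2).2 (by simp [o])
    · exact absurd (H1.node_inj e2).2.symm (nb_lf h.oneB)
    · have e3 : app (P △ .nil) (.nil △ .nil) = app S (B △ .nil) := e2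
      obtain ⟨e4, e5⟩ := H1.app_snoc e3
      exact Or.inr (Or.inl ⟨e5.symm, e4.symm⟩)
    · exact absurd (H1.node_inj e2).1 P0
  · -- `P(())()`
    have e1 : H1.W R .nil B S i = app (app P ((.nil △ .nil) △ .nil)) (.nil △ .nil) := by
      rw [e, H1.app_assoc]; rfl
    rcases h.lst hi h9 e1 with ⟨_, e2⟩ | ⟨_, e2⟩ | ⟨_, e2⟩ | ⟨i12, e2⟩ | ⟨_, e2⟩ | ⟨_, _, e2⟩
    · exact absurd (H1.app_snoc e2).2 (by simp)
    · obtain ⟨P', e3, _⟩ := fst_app P0 e2
      exact absurd e3 (fP P')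
    · have l := congrArg H1.len e2
      rw [H1.len_app, len_node, len_node, len_nil] at l
      omega
    · by_cases hB : B = .nil
      · subst hB
        have l := congrArg H1.len e2
        rw [H1.len_app, len_node, len_node, len_nil] at l
        omega
      · obtain ⟨B', e3, e4⟩ := lst_node hB e2.symm
        exact Or.inr (Or.inr ⟨rfl, i12, B', e3, e4⟩)
    · exact absurd (H1.app_snoc e2).2.symm (nb_lf h.oneB)
    · obtain ⟨P', e3, _⟩ := fst_app P0 e2
      exact absurd e3 (fP P')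
  · -- `(()())P`
    exfalso
    have e1 : H1.W R .nil B S i = (.nil △ (.nil △ .nil)) △ P := e
    rcases h.fstA hi h9 oo0 e1 with ⟨_, R', e3, _⟩ | ⟨_, R', e3, _⟩ | ⟨_, e3, _⟩ | ⟨_, e3, _⟩ | ⟨_, e3, _⟩ |
      ⟨_, e3, _⟩ | ⟨_, hB, e3, _⟩ | ⟨_, B', e3, _⟩ | ⟨_, B', e3, _⟩ | ⟨_, e3, _⟩ | ⟨_, S', e3, _⟩ | ⟨_, e3, _⟩ |
      ⟨_, S', e3, _⟩ | ⟨_, e3, _⟩ | ⟨_, e3, _⟩
    · exact one_oo R' (by rw [← e3]; exact h.one)
    · exact one_oo R' (by rw [← e3]; exact h.one)
    · exact one' hR h.one e3.symm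
    · exact absurd e3 (by simp)
    · exact ne_nil_node h.one e3.symm
    · exact ne_nil_node h.one (H1.node_inj e3).2.symm
    · exact absurd e3 (by simp)
    · exact one_oo B' (by rw [← e3]; exact h.oneB)
    · exact one_oo B' (by rw [← e3]; exact h.oneB)
    · exact ne_nil_node h.oneS e3.symm
    · exact one_oo S' (by rw [← e3]; exact h.oneS)
    · exact ne_nil_node h.oneS (H1.node_inj e3).2.symm
    · exact one_oo S' (by rw [← e3]; exact h.oneS)
    · exact hS (H1.node_inj e3).1.symm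
    · exact one' hS h.oneS e3.symm
  · -- `()()(P)`
    have e1 : H1.W R .nil B S i = .nil △ (.nil △ (P △ .nil)) := e
    rcases h.fst hi h9 e1 with ⟨_, e2⟩ | ⟨_, e2⟩ | ⟨_, e2⟩ | ⟨_, e2⟩ | ⟨_, e2⟩ | ⟨_, hB, e2⟩
    · exact absurd e2.symm (one' hR h.one)
    · exact Or.inl (H1.node_inj e2).2.symm
    · exact absurd (H1.node_inj e2).2 (by simp)
    · exact absurd (H1.node_inj e2).1.symm hS
    · exact absurd e2.symm (one' hS h.oneS)
    · exact Or.inr (Or.inl ⟨hB, (H1.node_inj e2).2.symm⟩)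

/-- the words of P5M against the words of J2B -/
theorem SqD.p5mw (h : SqD k R B S) (hP : PD P) {i j : ℕ} (hi : i < 20) (hj : j < 5)
    (e : H1.W R .nil B S i = wM P j) :
    R = P △ .nil ∨ (B = .nil ∧ S = P △ .nil) ∨
    (j = 3 ∧ i = 18 ∧ ∃ S', S = (.nil △ .nil) △ S' ∧ P = app S' (B △ .nil)) := by
  have hR := h.ne
  have hS := h.neS
  have P0 := hP.ne
  have lP := H1.len_pos P0
  have lR := H1.len_pos hR
  have lS := H1.len_pos hS
  have oo0 : (.nil △ (.nil △ .nil) : BinaryTree Unit) ≠ .nil := by simp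
  have bP : ∀ X : BinaryTree Unit, P ≠ app X (.nil △ .nil) := by
    rintro X rfl
    have := hP.lb
    rw [H1.lastB_app (by simp)] at this
    exact absurd this (by simp [H1.lastB, H1.isNil])
  have one' : ∀ {C : BinaryTree Unit}, C ≠ .nil → (OddHC.cont C).count 1 = 0 → ∀ {X Y : BinaryTree Unit},
      app C X ≠ .nil △ Y := by
    intro C hC hc X Y e1
    obtain ⟨C', e2, _⟩ := fst_app hC e1
    exact ne_nil_node hc e2
  by_cases h9 : i = 9
  · subst h9
    have e9 : H1.W R .nil B S 9 = (R △ .nil) △ .nil := rfl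
    rw [e9] at e
    exfalso
    interval_cases j
    · exact absurd (H1.node_inj (H1.node_inj e).1).2 (by simp [o])
    · exact absurd (H1.node_inj e).2 (by simp)
    · have l := congrArg H1.len e
      rw [wM, H1.len_app, len_node, len_node, len_nil] at l
      omega
    · exact absurd (H1.node_inj e).1 (by simp)
    · exact absurd (H1.node_inj e).1 (by simp)
  interval_cases j
  · -- `((P)())`
    have e1 : H1.W R .nil B S i = (P △ o) △ .nil := e
    rcases h.one1 hi h9 e1 with ⟨_, e2⟩ | ⟨_, e2⟩ | ⟨_, e2⟩ | ⟨_, e2⟩ | ⟨_, hB, e2⟩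
    · have e3 : app (P △ .nil) (.nil △ .nil) = app R (.nil △ .nil) := e2
      exact Or.inl (H1.app_snoc e3).1.symm
    · exact absurd (H1.node_inj e2).1 P0
    · exact absurd (H1.node_inj e2).2.symm (nb_lf h.oneB)
    · have e3 : app (P △ .nil) (.nil △ .nil) = app S (B △ .nil) := e2
      obtain ⟨e4, e5⟩ := H1.app_snoc e3
      exact Or.inr (Or.inl ⟨e5.symm, e4.symm⟩)
    · exact absurd (H1.node_inj e2).1 P0
  · -- `(P)()()`
    have e1 : H1.W R .nil B S i = app (app (P △ .nil) (.nil △ .nil)) (.nil △ .nil) := by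
      rw [e, H1.app_assoc]; rfl
    rcases h.lst hi h9 e1 with ⟨_, e2⟩ | ⟨_, e2⟩ | ⟨_, e2⟩ | ⟨_, e2⟩ | ⟨_, e2⟩ | ⟨_, _, e2⟩
    · exact Or.inl (H1.app_snoc e2).1.symm
    · exact absurd (H1.node_inj (show P △ (.nil △ .nil) = .nil △ R from e2)).1 P0
    · exact absurd (H1.node_inj (show P △ (.nil △ .nil) = R △ .nil from e2)).2 (by simp)
    · exact absurd (H1.node_inj (show P △ (.nil △ .nil) = S △ B from e2)).2.symm (nb_lf h.oneB)
    · obtain ⟨e4, e5⟩ := H1.app_snoc e2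
      exact Or.inr (Or.inl ⟨e5.symm, e4.symm⟩)
    · exact absurd (H1.node_inj (show P △ (.nil △ .nil) = .nil △ S from e2)).1 P0
  · -- `P(()())`
    exfalso
    have e1 : H1.W R .nil B S i = app P ((.nil △ (.nil △ .nil)) △ .nil) := e
    have tl : ∀ {C X : BinaryTree Unit}, (OddHC.cont C).count 1 = 0 → C ≠ app X ((.nil △ (.nil △ .nil)) △ .nil) := by
      rintro C X hc rfl
      exact one_oo .nil (cnt_tail hc)
    rcases h.lstA hi h9 oo0 e1 with ⟨_, e3, _⟩ | ⟨_, R', e3, _⟩ | ⟨_, R', e3, _⟩ | ⟨_, e3, _⟩ |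
      ⟨_, S', e3, _⟩ | ⟨_, S', e3, _⟩ |
      ⟨_, e3, _⟩ | ⟨_, _, e3, _⟩ | ⟨_, B', e3, _⟩ | ⟨_, _, e3, _⟩ | ⟨_, B', e3, _⟩ | ⟨_, e3, _⟩ |
      ⟨_, e3, _⟩ | ⟨_, e3, _⟩ | ⟨_, e3, _⟩ | ⟨_, e3, _⟩
    · exact absurd e3 (by simp)
    · exact tl h.one e3
    · exact tl h.one e3
    · exact ne_nil_node h.one e3.symm
    · exact tl h.oneS e3
    · exact tl h.oneS e3
    · by_cases hB : B = .nil
      · subst hB
        exact absurd e3 (by simp [app])
      · exact one' hB h.oneB e3.symm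
    · exact ne_nil_node h.oneS (H1.node_inj e3).2.symm
    · exact tl h.oneB e3
    · exact ne_nil_node h.oneS e3.symm
    · exact tl h.oneB e3
    · exact ne_nil_node h.oneB e3.symm
    · exact one' hR h.one e3.symm
    · exact ne_nil_node h.one (H1.node_inj e3).2.symm
    · exact hS (H1.node_inj e3).1.symm
    · exact one' hS h.oneS e3.symm
  · -- `()(())P`
    have e1 : H1.W R .nil B S i = .nil △ ((.nil △ .nil) △ P) := e
    rcases h.fst hi h9 e1 with ⟨_, e2⟩ | ⟨_, e2⟩ | ⟨_, e2⟩ | ⟨_, e2⟩ | ⟨i18, e2⟩ | ⟨_, _, e2⟩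
    · exfalso
      have e3 : app ((.nil △ .nil) △ .nil) P = app R (.nil △ .nil) := e2
      obtain ⟨P', e4, _⟩ := lst_app P0 e3
      exact bP P' e4
    · exact absurd (H1.node_inj e2).1 (by simp)
    · exact absurd (H1.node_inj e2).2 P0
    · exact absurd (H1.node_inj e2).1.symm (nb_lf h.oneS)
    · obtain ⟨S', e3, e4⟩ := fst_app hS e2.symm
      exact Or.inr (Or.inr ⟨rfl, i18, S', e3, e4⟩)
    · exact absurd (H1.node_inj e2).1 (by simp)
  · -- `()(P)()`
    have e1 : H1.W R .nil B S i = .nil △ (P △ o) := e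
    rcases h.fst hi h9 e1 with ⟨_, e2⟩ | ⟨_, e2⟩ | ⟨_, e2⟩ | ⟨_, e2⟩ | ⟨_, e2⟩ | ⟨_, _, e2⟩
    · have e3 : app (P △ .nil) (.nil △ .nil) = app R (.nil △ .nil) := e2
      exact Or.inl (H1.app_snoc e3).1.symm
    · exact absurd (H1.node_inj e2).1 P0
    · exact absurd (H1.node_inj e2).2 (by simp [o])
    · exact absurd (H1.node_inj e2).2.symm (nb_lf h.oneB)
    · have e3 : app (P △ .nil) (.nil △ .nil) = app S (B △ .nil) := e2
      obtain ⟨e4, e5⟩ := H1.app_snoc e3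
      exact Or.inr (Or.inl ⟨e5.symm, e4.symm⟩)
    · exact absurd (H1.node_inj e2).1 P0

end J3

open J3

/-- **P5 - J2B** -/
theorem TyP5D.j2w (h : TyP5D P F g) (h' : SqD k R B S) {w : X k} (hw : w ∈ g.B) {i : ℕ} (hi : i < 20)
    (e : w.1 = H1.W R .nil B S i) : R = P △ .nil ∨ (B = .nil ∧ S = P △ .nil) ∨
    (i = 12 ∧ ∃ B', B = app B' ((.nil △ .nil) △ .nil) ∧ P = S △ B') := by
  have key : ∀ j < 5, w.1 = wR P j → R = P △ .nil ∨ (B = .nil ∧ S = P △ .nil) ∨
      (i = 12 ∧ ∃ B', B = app B' ((.nil △ .nil) △ .nil) ∧ P = S △ B') := by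
    intro j hj ej
    rcases h'.p5w h.1 hi hj (e.symm.trans ej) with h1 | h1 | ⟨_, h1⟩
    · exact Or.inl h1
    · exact Or.inr (Or.inl h1)
    · exact Or.inr (Or.inr h1)
  rcases h.mem w hw with ⟨e1, _⟩ | ⟨_, e1 | e1 | e1 | e1⟩
  · exact key 0 (by norm_num) e1
  · exact key 1 (by norm_num) e1
  · exact key 2 (by norm_num) e1
  · exact key 3 (by norm_num) e1
  · exact key 4 (by norm_num) e1

/-- **P5M - J2B** -/
theorem TyP5MD.j2w (h : TyP5MD P F g) (h' : SqD k R B S) {w : X k} (hw : w ∈ g.B) {i : ℕ} (hi : i < 20)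
    (e : w.1 = H1.W R .nil B S i) : R = P △ .nil ∨ (B = .nil ∧ S = P △ .nil) ∨
    (i = 18 ∧ ∃ S', S = (.nil △ .nil) △ S' ∧ P = app S' (B △ .nil)) := by
  have key : ∀ j < 5, w.1 = wM P j → R = P △ .nil ∨ (B = .nil ∧ S = P △ .nil) ∨
      (i = 18 ∧ ∃ S', S = (.nil △ .nil) △ S' ∧ P = app S' (B △ .nil)) := by
    intro j hj ej
    rcases h'.p5mw h.1 hi hj (e.symm.trans ej) with h1 | h1 | ⟨_, h1⟩
    · exact Or.inl h1
    · exact Or.inr (Or.inl h1)
    · exact Or.inr (Or.inr h1)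
  rcases h.mem w hw with ⟨e1, _⟩ | ⟨_, e1 | e1 | e1 | e1⟩
  · exact key 0 (by norm_num) e1
  · exact key 1 (by norm_num) e1
  · exact key 2 (by norm_num) e1
  · exact key 3 (by norm_num) e1
  · exact key 4 (by norm_num) e1

end Pool.OddHC
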