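import Pool.Agent.Work.MP_8f87b2_h17.TyJ2B
import Pool.Agent.Work.MP_8f87b2_h21.J2Dn
import Pool.Agent.Work.MP_8f87b2_h21.J2P5

/-!
MP_8f87b2_co (helper21): the rows TyJ2R / TyJ2B - Dn, P5, P5M (words)
-/

set_option autoImplicit false
set_option linter.all false

namespace Pool.OddHC

open Finset Equiv BinaryTree Pool.Agent.Work.MP_8f87b2_co J3

variable {k : ℕ} {F F' : Set (Cyc k)} {g g' : DG k} {U P R B S : BinaryTree Unit}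

/-- **J2B - Dn** : only `R = (U)`, or `B` empty and `S = (U)` -/
theorem TyJ2R.dj_Dn21 (h : TyJ2R R B S F g) (hU : DnU U) (h' : TyC 2 U F' g') (hd : ∀ c ∈ F', c ∉ F)
    (hn : R ≠ U △ .nil) (hn' : B = .nil → S ≠ U △ .nil) : ∀ w ∈ g.B, w ∉ g'.B := by
  intro w hw hw'
  obtain ⟨i, hi, e⟩ := h.words w hw
  have hd' : ∀ d ∈ F', d ≠ cyc (sX R B S w 0) := by
    rintro d hd1 rfl
    exact hd _ hd1 ((h.memF w _).2 (Or.inl rfl))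
  rcases h.sqd.dn2 (w0 := w) hU h' hd' hw' hi e with ⟨_, e1⟩ | ⟨_, e1, e2⟩
  · exact hn e1
  · exact hn' e1 e2

/-- **J2B - P5** -/
theorem TyJ2R.dj_P5 (h : TyJ2R R B S F g) (h' : TyP5D P F' g') (h1 : R ≠ P △ .nil)
    (h2 : B = .nil → S ≠ P △ .nil) (h3 : ∀ B', B = app B' ((.nil △ .nil) △ .nil) → P ≠ S △ B') :
    ∀ w ∈ g.B, w ∉ g'.B := by
  intro w hw hw'
  obtain ⟨i, hi, e⟩ := h.words w hw
  rcases h'.j2w h.sqd hw' hi e with e1 | ⟨e1, e2⟩ | ⟨_, B', e1, e2⟩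
  · exact h1 e1
  · exact h2 e1 e2
  · exact h3 B' e1 e2

/-- **J2B - P5M** -/
theorem TyJ2R.dj_P5M (h : TyJ2R R B S F g) (h' : TyP5MD P F' g') (h1 : R ≠ P △ .nil)
    (h2 : B = .nil → S ≠ P △ .nil) (h3 : ∀ S', S = (.nil △ .nil) △ S' → P ≠ app S' (B △ .nil)) :
    ∀ w ∈ g.B, w ∉ g'.B := by
  intro w hw hw'
  obtain ⟨i, hi, e⟩ := h.words w hw
  rcases h'.j2w h.sqd hw' hi e with e1 | ⟨e1, e2⟩ | ⟨_, B', e1, e2⟩
  · exact h1 e1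
  · exact h2 e1 e2
  · exact h3 B' e1 e2

/-- if `R` is not one component, and for `B` empty `S` is not one component: **J2B - Dn** -/
theorem TyJ2R.dj_Dn2 (h : TyJ2R R B S F g) (h' : TyDn F' g') (hd : ∀ c ∈ F', c ∉ F)
    (hn : ∀ A, R ≠ A △ .nil) (hn' : B = .nil → ∀ A, S ≠ A △ .nil) : ∀ w ∈ g.B, w ∉ g'.B := by
  obtain ⟨U, hU, h'⟩ := h'
  exact h.dj_Dn21 hU h' hd (hn U) (fun hB => hn' hB U)

end Pool.OddHC
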